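import Pool.Agent.N128.DQ.Spec

/-!
# Taylor expansion in the direction `(1, t)` of two variables
-/

set_option autoImplicit false
set_option linter.unusedSectionVars false

namespace Pool.Agent.N128.DQ

open MvPolynomial Pool.Agent.R867.Mov

universe u v w

section Deg

variable {k : Type u} [Field k] {ι : Type w} [DecidableEq ι]

/-- the coefficients of `P` have degree at most `d` in `q` -/
def QD (q : ι) (P : Polynomial (MvPolynomial ι k)) (d : ℕ) : Prop :=
  ∀ a, degreeOf q (P.coeff a) ≤ d

theorem QD.mul {q : ι} {P Q : Polynomial (MvPolynomial ι k)} {d e : ℕ} (hP : QD q P d)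
    (hQ : QD q Q e) : QD q (P * Q) (d + e) := by
  intro a
  rw [Polynomial.coeff_mul]
  refine (degreeOf_sum_le _ _ _).trans (Finset.sup_le fun z _ => ?_)
  exact (degreeOf_mul_le _ _ _).trans (add_le_add (hP _) (hQ _))

theorem QD.C_of {q : ι} {g : MvPolynomial ι k} {d : ℕ} (hg : degreeOf q g ≤ d) :
    QD q (Polynomial.C g) d := by
  intro a
  rw [Polynomial.coeff_C]
  split_ifs
  · exact hg
  · simp

theorem QD.pow {q : ι} {P : Polynomial (MvPolynomial ι k)} {d : ℕ} (hP : QD q P d) (n : ℕ) :
    QD q (P ^ n) (n * d) := by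
  induction n with
  | zero =>
    rw [pow_zero, Nat.zero_mul]
    exact QD.C_of (g := 1) (by simp)
  | succ n ih =>
    rw [pow_succ, Nat.succ_mul]
    exact ih.mul hP

theorem QD_X {p q i : ι} (hpq : q ≠ p) : QD q (tay (k := k) p (X i)) (if i = q then 1 else 0) := by
  by_cases hi : i = p
  · subst hi
    rw [tay_X_self, if_neg (fun h => hpq h.symm)]
    intro a
    rw [Polynomial.coeff_add, Polynomial.coeff_C, Polynomial.coeff_X]
    refine (degreeOf_add_le _ _ _).trans (max_le ?_ ?_)
    · split_ifs
      · rw [degreeOf_X, if_neg hpq]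
      · simp
    · split_ifs
      · simp
      · simp
  · rw [tay_X_ne hi]
    apply QD.C_of
    rw [degreeOf_X]
    split_ifs with h1 h2 h3
    · exact le_rfl
    · exact absurd h1.symm h2
    · exact absurd h3.symm h1
    · exact le_rfl

theorem QD_monomial {p q : ι} (hpq : q ≠ p) (m : ι →₀ ℕ) (c : k) :
    QD q (tay p (monomial m c)) (m q) := by
  rw [monomial_eq, map_mul, tay_C, Finsupp.prod, map_prod]
  have h1 : QD q (∏ i ∈ m.support, tay (k := k) p (X i ^ m i))
      (∑ i ∈ m.support, m i * (if i = q then 1 else 0)) := by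
    induction m.support using Finset.induction_on with
    | empty =>
      rw [Finset.prod_empty, Finset.sum_empty]
      exact QD.C_of (g := 1) (by simp)
    | insert a s ha ih =>
      rw [Finset.prod_insert ha, Finset.sum_insert ha]
      refine QD.mul ?_ ih
      rw [map_pow]
      exact (QD_X hpq).pow _
  have h2 : ∑ i ∈ m.support, m i * (if i = q then 1 else 0) ≤ m q := by
    simp only [mul_ite, mul_one, mul_zero]
    rw [Finset.sum_ite_eq']
    split_ifs
    · exact le_rfl
    · exact Nat.zero_le _
  have h3 := (QD.C_of (q := q) (g := (C c : MvPolynomial ι k)) (d := 0) (by simp)).mul h1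
  rw [zero_add] at h3
  exact fun a => (h3 a).trans h2

/-- the degree of the coefficients of the Taylor expansion -/
theorem deg_coeff {p q : ι} (hpq : q ≠ p) {f : MvPolynomial ι k} {n : ℕ}
    (hf : ∀ m ∈ f.support, m p + m q ≤ n) (a : ℕ) :
    degreeOf q ((tay p f).coeff a) ≤ n - a := by
  have h1 : tay p f = ∑ m ∈ f.support, tay p (monomial m (coeff m f)) := by
    conv_lhs => rw [f.as_sum]
    rw [map_sum]
  rw [h1, Polynomial.finsetSum_coeff]
  refine (degreeOf_sum_le _ _ _).trans (Finset.sup_le fun m hm => ?_)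
  by_cases ha : m p < a
  · have h2 : (tay p (monomial m (coeff m f))).coeff a = 0 := by
      refine tay_coeff_zero (d := m p) ?_ ha
      rw [degreeOf_le_iff]
      intro m' hm'
      have h3 := support_monomial_subset hm'
      rw [Finset.mem_singleton] at h3
      rw [h3]
    rw [h2]
    simp
  · have h2 := QD_monomial hpq m (coeff m f) a
    have h3 := hf m hm
    omega

/-- the Taylor coefficients -/
noncomputable def g (p q : ι) (f : MvPolynomial ι k) (a b : ℕ) : MvPolynomial ι k :=
  (tay q ((tay p f).coeff a)).coeff b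

theorem g00 (p q : ι) (f : MvPolynomial ι k) : g p q f 0 0 = f := by
  unfold g
  rw [tay_zero, tay_zero]

theorem ga0 (p q : ι) (f : MvPolynomial ι k) (a : ℕ) : g p q f a 0 = (tay p f).coeff a := by
  unfold g
  rw [tay_zero]

theorem g10 (p q : ι) (f : MvPolynomial ι k) : g p q f 1 0 = pderiv p f := by
  unfold g
  rw [tay_zero, tay_one]

theorem g01 (p q : ι) (f : MvPolynomial ι k) : g p q f 0 1 = pderiv q f := by
  unfold g
  rw [tay_zero, tay_one]

theorem g11 (p q : ι) (f : MvPolynomial ι k) : g p q f 1 1 = pderiv q (pderiv p f) := by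
  unfold g
  rw [tay_one, tay_one]

theorem two_coeff (p : ι) (f : MvPolynomial ι k) :
    2 * (tay p f).coeff 2 = pderiv p (pderiv p f) := by
  induction f using MvPolynomial.induction_on with
  | C a => rw [tay_C, Polynomial.coeff_C, if_neg two_ne_zero, pderiv_C, map_zero, mul_zero]
  | add p q hp hq => rw [map_add, Polynomial.coeff_add, mul_add, hp, hq, map_add, map_add]
  | mul_X P i hp =>
    rw [map_mul, pderiv_mul]
    by_cases h : i = p
    · rw [h, tay_X_self, mul_add, Polynomial.coeff_add, Polynomial.coeff_mul_C,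
        show (2 : ℕ) = 1 + 1 from rfl, Polynomial.coeff_mul_X, tay_one, pderiv_X_self, mul_one,
        map_add, pderiv_mul, pderiv_X_self, mul_one, ← hp]
      ring
    · rw [tay_X_ne h, Polynomial.coeff_mul_C, pderiv_X_of_ne h, mul_zero, add_zero, pderiv_mul,
        pderiv_X_of_ne h, mul_zero, add_zero, ← hp]
      ring

theorem g20 (p q : ι) (f : MvPolynomial ι k) : 2 * g p q f 2 0 = pderiv p (pderiv p f) := by
  rw [ga0, two_coeff]

theorem g02 (p q : ι) (f : MvPolynomial ι k) : 2 * g p q f 0 2 = pderiv q (pderiv q f) := by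
  unfold g
  rw [tay_zero, two_coeff]

/-- the Taylor coefficients in the direction `(1, T)` -/
noncomputable def D1 (p q : ι) (f : MvPolynomial ι k) : Polynomial (MvPolynomial ι k) :=
  Polynomial.C (g p q f 1 0) + Polynomial.C (g p q f 0 1) * Polynomial.X

/-- the second Taylor coefficient -/
noncomputable def D2' (p q : ι) (f : MvPolynomial ι k) : Polynomial (MvPolynomial ι k) :=
  Polynomial.C (g p q f 2 0) + Polynomial.C (g p q f 1 1) * Polynomial.X +
    Polynomial.C (g p q f 0 2) * Polynomial.X ^ 2

/-- the third Taylor coefficient -/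
noncomputable def D3' (p q : ι) (f : MvPolynomial ι k) : Polynomial (MvPolynomial ι k) :=
  Polynomial.C (g p q f 3 0) + Polynomial.C (g p q f 2 1) * Polynomial.X +
    Polynomial.C (g p q f 1 2) * Polynomial.X ^ 2 + Polynomial.C (g p q f 0 3) * Polynomial.X ^ 3

/-- the fourth Taylor coefficient -/
noncomputable def D4' (p q : ι) (f : MvPolynomial ι k) : Polynomial (MvPolynomial ι k) :=
  Polynomial.C (g p q f 4 0) + Polynomial.C (g p q f 3 1) * Polynomial.X +
    Polynomial.C (g p q f 2 2) * Polynomial.X ^ 2 + Polynomial.C (g p q f 1 3) * Polynomial.X ^ 3 +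
    Polynomial.C (g p q f 0 4) * Polynomial.X ^ 4

/-- the numerator -/
noncomputable def CC (p q : ι) (f : MvPolynomial ι k) : Polynomial (MvPolynomial ι k) :=
  8 * (8 * Polynomial.C f ^ 2 * D3' p q f - 4 * Polynomial.C f * D1 p q f * D2' p q f +
    D1 p q f ^ 3)

/-- the denominator -/
noncomputable def BB (p q : ι) (f : MvPolynomial ι k) : Polynomial (MvPolynomial ι k) :=
  (4 * Polynomial.C f * D2' p q f - D1 p q f ^ 2) ^ 2 - 64 * Polynomial.C f ^ 3 * D4' p q f

end Deg

section Pt

variable {k : Type u} [Field k] {ι : Type w} [DecidableEq ι] {E : Type v} [Field E] [Algebra k E]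

/-- the expansion of `f` at the point moved by `(l, t l)` -/
theorem expand {p q : ι} (hpq : q ≠ p) {f : MvPolynomial ι k}
    (hf : ∀ m ∈ f.support, m p + m q ≤ 4) (y : ι → E) (t l : E) :
    aeval (Function.update (Function.update y q (y q + t * l)) p (y p + l)) f =
      aeval y f + ev2 y t (D1 p q f) * l + ev2 y t (D2' p q f) * l ^ 2 +
        ev2 y t (D3' p q f) * l ^ 3 + ev2 y t (D4' p q f) * l ^ 4 := by
  have hp4 : degreeOf p f ≤ 4 := by
    rw [degreeOf_le_iff]
    intro m hm
    have := hf m hm
    omega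
  have h1 := tay_sum (Function.update y q (y q + t * l)) p l f hp4
  rw [Function.update_of_ne hpq.symm] at h1
  rw [h1]
  have h2 : ∀ a, aeval (Function.update y q (y q + t * l)) ((tay p f).coeff a) =
      ∑ b ∈ Finset.range (4 - a + 1), aeval y (g p q f a b) * (t * l) ^ b := fun a =>
    tay_sum y q (t * l) _ (deg_coeff hpq hf a)
  simp only [h2]
  simp only [Finset.sum_range_succ, Finset.sum_range_zero, D1, D2', D3', D4', map_add, map_mul,
    map_pow, ev2_C, ev2_X, g00]
  norm_num [Finset.sum_range_succ, g00]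
  ring

end Pt

end Pool.Agent.N128.DQ
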