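import Pool.Agent.N128.DQ.Tri
import Pool.Agent.R867.D.MainRC

/-!
# Cyclic covers of low degree in all variables but one

The general form of the theorems on double and triple covers: one variable of arbitrary degree is allowed if the variety
is rationally connected. (`out_of` and `not_indep` are due to helper230, `Pool.Agent.N230.DC.Main`.)
-/

set_option autoImplicit false
set_option linter.unusedSectionVars false
set_option maxHeartbeats 400000

namespace Pool.Agent.N128.DQ

open MvPolynomial Pool.Agent.R867.Mov Pool.Agent.R867.D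

universe u v w

section

variable {k K : Type u} [Field k] [Field K] [Algebra k K] {ι : Type w} [DecidableEq ι] {x : ι → K}
  {f : MvPolynomial ι k} {w : K}

/-- The induction on the set of variables of low degree. -/
theorem out_of [CharZero k] [Finite ι] (hx : AlgebraicIndependent k x) (hf : Irreducible f)
    {r : ℕ} (hr : 1 ≤ r) (hw : w ^ r = aeval x f)
    (htop : IntermediateField.adjoin k (insert w (Set.range x)) = ⊤)
    {I₀ J₀ : Set ι} (hbase : ∀ a : K, Imm k a → a ∈ cl k (x '' I₀ᶜ))
    (hself : ∀ j, j ∈ J₀ → j ∉ I₀ → 1 ≤ degreeOf j f →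
      ∃ T : K →ₐ[k] K, (∀ i, i ≠ j → T (x i) = x i) ∧ T (x j) ∉ cl k (x '' I₀ᶜ)) :
    ∀ a : K, Imm k a → a ∈ cl k (x '' (I₀ ∪ J₀)ᶜ) := by
  have key : ∀ J : Set ι, J.Finite → (∀ j ∈ J, j ∈ J₀ ∧ j ∉ I₀) → ∀ a : K, Imm k a →
      a ∈ cl k (x '' (I₀ ∪ J)ᶜ) := by
    intro J hJ
    induction J, hJ using Set.Finite.induction_on with
    | empty =>
      intro _ a ha
      rw [Set.union_empty]
      exact hbase a ha
    | @insert j J hjJ hJ ih =>
      intro hI a ha
      have hjI : j ∉ I₀ := (hI j (Set.mem_insert _ _)).2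
      have ih' := ih (fun i hi => hI i (Set.mem_insert_of_mem _ hi))
      have hset : x '' (I₀ ∪ J)ᶜ = insert (x j) (x '' (I₀ ∪ insert j J)ᶜ) := by
        rw [← Set.image_insert_eq]
        congr 1
        ext i
        simp only [Set.mem_compl_iff, Set.mem_union, Set.mem_insert_iff, not_or]
        constructor
        · rintro ⟨h1, h2⟩
          by_cases h3 : i = j
          · exact Or.inl h3
          · exact Or.inr ⟨h1, h3, h2⟩
        · rintro (rfl | ⟨h1, -, h2⟩)
          · exact ⟨hjI, hjJ⟩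
          · exact ⟨h1, h2⟩
      have h1 := ih' a ha
      rw [hset] at h1
      rcases Nat.eq_zero_or_pos (degreeOf j f) with h0 | hpos
      · obtain ⟨σ, hσ1, hσ2⟩ := trans_move hx hf hr hw htop h0
        refine step_out σ (R := con 1 K) ?_ (subset_cl _ (ha 1 σ)) (fun h => hσ2 (mem_con_cl h)) h1
        rintro _ ⟨i, hi, rfl⟩
        refine subset_cl _ (hσ1 i ?_)
        rintro rfl
        exact hi (Or.inr (Set.mem_insert _ _))
      · obtain ⟨T, hT1, hT2⟩ := hself j (hI j (Set.mem_insert _ _)).1 hjI hpos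
        refine step_out T (R := x '' I₀ᶜ) ?_ ?_ hT2 h1
        · rintro _ ⟨i, hi, rfl⟩
          rw [hT1 i (by
            rintro rfl
            exact hi (Or.inr (Set.mem_insert _ _)))]
          refine subset_cl _ ⟨i, fun h => hi (Or.inl h), rfl⟩
        · exact hbase _ (ha.map T)
  intro a ha
  have h1 := key (J₀ \ I₀) (Set.toFinite _) (fun j hj => hj) a ha
  rwa [Set.union_diff_self] at h1

/-- Two elements which depend on one element are not independent. -/
theorem not_indep {y a b : K} (ha : a ∈ cl k {y}) (hb : b ∈ cl k {y}) :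
    ¬ AlgebraicIndependent k ![a, b] := by
  intro h
  have h1 : a ∉ cl k (∅ : Set K) := by
    intro h0
    have h2 := notMem_cl h (J := ∅) (j := 0) (by simp)
    rw [Set.image_empty] at h2
    exact h2 h0
  have h2 : y ∈ cl k {a} := by
    have h3 := cl_exch (k := k) (S := ∅) (a := a) (b := y) (by simpa using ha) h1
    simpa using h3
  have h3 : b ∈ cl k {a} := by
    refine cl_sub ?_ hb
    rintro _ rfl
    exact h2
  have h4 := notMem_cl h (J := {0}) (j := 1) (by simp)
  rw [Set.image_singleton] at h4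
  exact h4 h3

end

section

variable {k : Type u} [Field k] {n : ℕ} {f : MvPolynomial (Fin n) k}

theorem cons_ev2 {E : Type v} [Field E] [Algebra k E] (y : Fin n → E) (v : E)
    (Q : MvPolynomial (Fin (n + 1)) k) :
    aeval (Fin.cons v y : Fin (n + 1) → E) Q = ev2 y v (finSuccEquiv k n Q) := by
  have h : (aeval (Fin.cons v y : Fin (n + 1) → E) : MvPolynomial (Fin (n + 1)) k →ₐ[k] E) =
      (ev2 y v).comp (finSuccEquiv k n : MvPolynomial (Fin (n + 1)) k →ₐ[k]
        Polynomial (MvPolynomial (Fin n) k)) := by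
    apply MvPolynomial.algHom_ext
    intro i
    rw [aeval_X]
    refine Fin.cases ?_ (fun j => ?_) i
    · rw [Fin.cons_zero]
      change v = ev2 y v (finSuccEquiv k n (X 0))
      rw [finSuccEquiv_X_zero, ev2_X]
    · rw [Fin.cons_succ]
      change y j = ev2 y v (finSuccEquiv k n (X j.succ))
      rw [finSuccEquiv_X_succ, ev2_C, aeval_X]
  rw [h]
  rfl

theorem ker_imp {K : Type u} [Field K] [Algebra k K] {x : Fin n → K} {w : K} (hf : Irreducible f)
    {r : ℕ} (hr : 1 ≤ r) (hx : AlgebraicIndependent k x) (hw : w ^ r = aeval x f)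
    {Q : MvPolynomial (Fin (n + 1)) k}
    (hQ : aeval (Fin.cons w x : Fin (n + 1) → K) Q = 0) {E : Type v} [Field E] [Algebra k E]
    (y : Fin n → E) (v : E) (hv : v ^ r = aeval y f) :
    aeval (Fin.cons v y : Fin (n + 1) → E) Q = 0 := by
  rw [cons_ev2] at hQ ⊢
  obtain ⟨P, hP⟩ := (ker_cyc hf hr hx hw _).1 hQ
  rw [hP, map_mul, map_sub, map_pow, ev2_X, ev2_C, hv, sub_self, zero_mul]

variable {K : Type u} [Field K] [Algebra k K] {x : Fin n → K} {w : K}

theorem pt_eq {r : ℕ} (hw : w ^ r = aeval x f) {p : Fin (n + 1) → k}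
    (hp : IsPoint (Fin.cons w x : Fin (n + 1) → K) p) : p 0 ^ r = eval (fun i => p i.succ) f := by
  have h1 := hp (X 0 ^ r - rename Fin.succ f) (by
    rw [map_sub, map_pow, aeval_X, aeval_rename, Fin.cons_zero, hw]
    have h2 : (Fin.cons w x : Fin (n + 1) → K) ∘ Fin.succ = x := by
      funext i
      rfl
    rw [h2, sub_self])
  rw [map_sub, map_pow, eval_X, eval_rename] at h1
  exact sub_eq_zero.1 h1

/-- a curve on the cyclic cover through two points -/
def JoinedOn (r : ℕ) (f : MvPolynomial (Fin n) k) (P P' : Fin (n + 1) → k) : Prop :=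
  ∃ (a : Fin (n + 1) → Polynomial k) (b : Polynomial k), b.eval 0 ≠ 0 ∧ b.eval 1 ≠ 0 ∧
    (∀ i, (a i).eval 0 = P i * b.eval 0) ∧ (∀ i, (a i).eval 1 = P' i * b.eval 1) ∧
    (algebraMap (Polynomial k) (RatFunc k) (a 0) / algebraMap (Polynomial k) (RatFunc k) b) ^ r =
      aeval (fun i : Fin n => algebraMap (Polynomial k) (RatFunc k) (a i.succ) /
        algebraMap (Polynomial k) (RatFunc k) b) f

/-- two general points of the cyclic cover are on a rational curve -/
def RCOn (r : ℕ) (f : MvPolynomial (Fin n) k) : Prop :=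
  ∃ H : MvPolynomial (Fin (n + 1) ⊕ Fin (n + 1)) k,
    (∃ P P' : Fin (n + 1) → k, P 0 ^ r = eval (fun i => P i.succ) f ∧
      P' 0 ^ r = eval (fun i => P' i.succ) f ∧ eval (Sum.elim P P') H ≠ 0) ∧
    ∀ P P' : Fin (n + 1) → k, P 0 ^ r = eval (fun i => P i.succ) f →
      P' 0 ^ r = eval (fun i => P' i.succ) f → eval (Sum.elim P P') H ≠ 0 → JoinedOn r f P P'

theorem rc_of (hf : Irreducible f) {r : ℕ} (hr : 1 ≤ r) (hx : AlgebraicIndependent k x)
    (hw : w ^ r = aeval x f) (h : RCOn r f) :
    RationallyConnected k (Fin.cons w x : Fin (n + 1) → K) := by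
  obtain ⟨H, ⟨P, P', hP, hP', hH⟩, hJ⟩ := h
  have hpt : ∀ P : Fin (n + 1) → k, P 0 ^ r = eval (fun i => P i.succ) f →
      IsPoint (Fin.cons w x : Fin (n + 1) → K) P := by
    intro P hP Q hQ
    have h1 := ker_imp hf hr hx hw hQ (fun i => P i.succ) (P 0) (by rw [hP]; rfl)
    have h2 : (Fin.cons (P 0) (fun i => P i.succ) : Fin (n + 1) → k) = P := Fin.cons_self_tail P
    rw [h2] at h1
    exact h1
  refine ⟨H, ⟨P, P', hpt P hP, hpt P' hP', hH⟩, fun P P' hP hP' hH => ?_⟩
  obtain ⟨a, b, hb0, hb1, ha0, ha1, he⟩ := hJ P P' (pt_eq hw hP) (pt_eq hw hP') hH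
  refine ⟨a, b, hb0, hb1, ha0, ha1, fun Q hQ => ?_⟩
  have h1 := ker_imp hf hr hx hw hQ (fun i : Fin n =>
    algebraMap (Polynomial k) (RatFunc k) (a i.succ) / algebraMap (Polynomial k) (RatFunc k) b)
    (algebraMap (Polynomial k) (RatFunc k) (a 0) / algebraMap (Polynomial k) (RatFunc k) b) he
  have h2 : (Fin.cons (algebraMap (Polynomial k) (RatFunc k) (a 0) /
      algebraMap (Polynomial k) (RatFunc k) b) (fun i : Fin n =>
      algebraMap (Polynomial k) (RatFunc k) (a i.succ) / algebraMap (Polynomial k) (RatFunc k) b) :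
      Fin (n + 1) → RatFunc k) = fun i => algebraMap (Polynomial k) (RatFunc k) (a i) /
        algebraMap (Polynomial k) (RatFunc k) b :=
    Fin.cons_self_tail (fun i => algebraMap (Polynomial k) (RatFunc k) (a i) /
        algebraMap (Polynomial k) (RatFunc k) b)
  rw [h2] at h1
  exact h1

/-- From the variables of low degree to the whole variety. -/
theorem main_v [IsAlgClosed k] [CharZero k] (hf : Irreducible f) {r : ℕ} (hr : 1 ≤ r)
    (hx : AlgebraicIndependent k x) (hw : w ^ r = aeval x f)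
    (htop : IntermediateField.adjoin k (insert w (Set.range x)) = ⊤)
    {I₀ : Set (Fin n)} {v : Fin n} (hbase : ∀ a : K, Imm k a → a ∈ cl k (x '' I₀ᶜ))
    (hself : ∀ j, j ≠ v → j ∉ I₀ → 1 ≤ degreeOf j f →
      ∃ T : K →ₐ[k] K, (∀ i, i ≠ j → T (x i) = x i) ∧ T (x j) ∉ cl k (x '' I₀ᶜ))
    (hrc : RCOn r f) : ∃ m, Nonempty (K →ₐ[k] Rt m k) := by
  have hran : Set.range (Fin.cons w x : Fin (n + 1) → K) = insert w (Set.range x) :=
    Fin.range_cons _ _
  refine main_rc (x := (Fin.cons w x : Fin (n + 1) → K)) (by rw [hran, htop])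
    (curvePts_of_rc (rc_of hf hr hx hw hrc)) fun a b ha hb => ?_
  have key := out_of hx hf hr hw htop (I₀ := I₀) (J₀ := {j | j ≠ v}) hbase hself
  have hsub : cl k (x '' (I₀ ∪ {j | j ≠ v})ᶜ) ⊆ cl k ({x v} : Set K) := by
    refine cl_mono ?_
    rintro _ ⟨i, hi, rfl⟩
    have h5 : i = v := by
      by_contra h6
      exact hi (Or.inr h6)
    rw [h5]
    rfl
  exact not_indep (hsub (key a ha)) (hsub (key b hb))

/-- the function field of the cyclic cover -/
theorem exists_field {ι : Type} (f : MvPolynomial ι k) (hf : Irreducible f) {r : ℕ}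
    (hr : r.Prime) : ∃ (K : Type u) (_ : Field K) (_ : Algebra k K) (x : ι → K) (w : K),
      AlgebraicIndependent k x ∧ w ^ r = aeval x f ∧
        IntermediateField.adjoin k (insert w (Set.range x)) = ⊤ := by
  classical
  let F := FractionRing (MvPolynomial ι k)
  let g : F := algebraMap (MvPolynomial ι k) F f
  have hirr : Irreducible (Polynomial.X ^ r - Polynomial.C g : Polynomial F) := by
    apply X_pow_sub_C_irreducible_of_prime hr
    intro b hb
    have hint : IsIntegral (MvPolynomial ι k) b := by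
      refine ⟨Polynomial.X ^ r - Polynomial.C f, Polynomial.monic_X_pow_sub_C f hr.ne_zero, ?_⟩
      rw [← Polynomial.aeval_def]
      simp only [map_sub, map_pow, Polynomial.aeval_X, Polynomial.aeval_C]
      rw [hb]
      exact sub_self _
    obtain ⟨c, rfl⟩ := IsIntegrallyClosed.isIntegral_iff.mp hint
    rw [← map_pow] at hb
    have h2 : c ^ r = f := IsFractionRing.injective (MvPolynomial ι k) F hb
    rw [← h2] at hf
    exact (not_irreducible_pow hr.ne_one) hf
  have : Fact (Irreducible (Polynomial.X ^ r - Polynomial.C g : Polynomial F)) := ⟨hirr⟩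
  let K := AdjoinRoot (Polynomial.X ^ r - Polynomial.C g : Polynomial F)
  let x : ι → K := fun i => algebraMap F K (algebraMap (MvPolynomial ι k) F (X i))
  let w : K := AdjoinRoot.root _
  have hae : ∀ p : MvPolynomial ι k,
      aeval x p = algebraMap F K (algebraMap (MvPolynomial ι k) F p) := by
    intro p
    induction p using MvPolynomial.induction_on with
    | C a =>
      rw [← MvPolynomial.algebraMap_eq, AlgHom.commutes, ← IsScalarTower.algebraMap_apply,
        ← IsScalarTower.algebraMap_apply]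
    | add p q hp hq => rw [map_add, map_add, map_add, hp, hq]
    | mul_X p i hp => rw [map_mul, map_mul, map_mul, hp, aeval_X]
  refine ⟨K, inferInstance, inferInstance, x, w, ?_, ?_, ?_⟩
  · intro p q hpq
    rw [hae, hae] at hpq
    exact IsFractionRing.injective (MvPolynomial ι k) F ((algebraMap F K).injective hpq)
  · rw [hae]
    have h := AdjoinRoot.eval₂_root (Polynomial.X ^ r - Polynomial.C g : Polynomial F)
    simp only [Polynomial.eval₂_sub, Polynomial.eval₂_pow, Polynomial.eval₂_X,
      Polynomial.eval₂_C] at h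
    exact sub_eq_zero.mp h
  · rw [eq_top_iff]
    intro z _
    set A := IntermediateField.adjoin k (insert w (Set.range x)) with hA
    have hw : w ∈ A := IntermediateField.subset_adjoin k _ (Set.mem_insert _ _)
    have hx : ∀ i, x i ∈ A := fun i =>
      IntermediateField.subset_adjoin k _ (Set.mem_insert_of_mem _ ⟨i, rfl⟩)
    have hp : ∀ p : MvPolynomial ι k, algebraMap F K (algebraMap (MvPolynomial ι k) F p) ∈ A := by
      intro p
      rw [← hae]
      exact aeval_mem' A x hx p
    have hF : ∀ c : F, algebraMap F K c ∈ A := by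
      intro c
      obtain ⟨p, q, hq, rfl⟩ := IsFractionRing.div_surjective (A := MvPolynomial ι k) c
      rw [map_div₀]
      exact div_mem (hp p) (hp q)
    obtain ⟨P, rfl⟩ := AdjoinRoot.mk_surjective z
    induction P using Polynomial.induction_on' with
    | add P Q hP hQ =>
      rw [map_add]
      exact add_mem (hP trivial) (hQ trivial)
    | monomial m c =>
      rw [← Polynomial.C_mul_X_pow_eq_monomial, map_mul, map_pow, AdjoinRoot.mk_X, AdjoinRoot.mk_C]
      exact mul_mem (hF c) (pow_mem hw m)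

end

section

variable {k : Type u} [Field k] [IsAlgClosed k] [CharZero k] {n : ℕ} {f : MvPolynomial (Fin n) k}

/-- double covers: the final form -/
theorem final2 (hf : Irreducible f) {p q v : Fin n} (hpq : p ≠ q)
    (h4 : ∀ m ∈ f.support, m p + m q ≤ 4) (hj : ∀ j, j ≠ v → degreeOf j f ≤ 4)
    (hH : ¬ f ∣ Hs p q f) (h : degreeOf v f ≤ 4 ∨ RCOn 2 f) :
    ∃ (m : ℕ) (P : Fin n → Rt m k) (W : Rt m k),
      AlgebraicIndependent k P ∧ W ^ 2 = aeval P f := by
  obtain ⟨K, _, _, x, w, hx, hw, htop⟩ := exists_field f hf Nat.prime_two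
  obtain ⟨hdp, -⟩ := degs hH
  have hmain : ∃ m, Nonempty (K →ₐ[k] Rt m k) := by
    rcases h with h | h
    · refine main hf hpq.symm h4 (fun j => ?_) hH hx hw htop
      by_cases hjv : j = v
      · rw [hjv]
        exact h
      · exact hj j hjv
    · refine main_v hf (r := 2) (by norm_num) hx hw htop (I₀ := {p, q}) (v := v)
        (base hx hf hw htop hpq.symm h4 hH) (fun j hjv hjI hpos => ?_) h
      obtain ⟨T, hT1, hT2⟩ := self2 hx hf hw htop hpos (hj j hjv)
      refine ⟨T, hT1, ?_⟩
      rw [hT2]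
      exact notMem_cl_A hx hf (i₀ := p) hjI (by simp) hdp (C2_dvd j f) (D2_dvd j f) (by norm_num)
        (not_dvd_pderiv hpos)
  obtain ⟨m, ⟨φ⟩⟩ := hmain
  refine ⟨m, fun i => φ (x i), φ w, hx.map' (f := φ) φ.toRingHom.injective, ?_⟩
  rw [← map_pow, hw, MvPolynomial.comp_aeval_apply]

/-- triple covers: the final form -/
theorem final3 (hf : Irreducible f) {p q v : Fin n} (hpq : p ≠ q)
    (h3 : ∀ m ∈ f.support, m p + m q ≤ 3) (hj : ∀ j, j ≠ v → degreeOf j f ≤ 3)
    (hH : ¬ f ∣ Hs p q f) (h : degreeOf v f ≤ 3 ∨ RCOn 3 f) :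
    ∃ (m : ℕ) (P : Fin n → Rt m k) (W : Rt m k),
      AlgebraicIndependent k P ∧ W ^ 3 = aeval P f := by
  obtain ⟨K, _, _, x, w, hx, hw, htop⟩ := exists_field f hf Nat.prime_three
  obtain ⟨hdp, -⟩ := degs hH
  have hmain : ∃ m, Nonempty (K →ₐ[k] Rt m k) := by
    rcases h with h | h
    · refine Tri.main hf hpq.symm h3 (fun j => ?_) hH hx hw htop
      by_cases hjv : j = v
      · rw [hjv]
        exact h
      · exact hj j hjv
    · refine main_v hf (r := 3) (by norm_num) hx hw htop (I₀ := {p, q}) (v := v)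
        (Tri.base hx hf hw htop hpq.symm h3 hH) (fun j hjv hjI hpos => ?_) h
      obtain ⟨T, hT1, hT2⟩ := self3 hx hf hw htop hpos (hj j hjv)
      refine ⟨T, hT1, ?_⟩
      rw [hT2]
      exact notMem_cl_A hx hf (i₀ := p) hjI (by simp) hdp (C3_dvd j f) (D3_dvd j f) (by norm_num)
        (not_dvd_pderiv hpos)
  obtain ⟨m, ⟨φ⟩⟩ := hmain
  refine ⟨m, fun i => φ (x i), φ w, hx.map' (f := φ) φ.toRingHom.injective, ?_⟩
  rw [← map_pow, hw, MvPolynomial.comp_aeval_apply]

end

end Pool.Agent.N128.DQ
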