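import Pool.Agent.R867.Mov.DC

/-!
# The self-maps of double covers along genus one fibrations are not preperiodic

`T : K → K` fixes the coordinates `x i`, `i ≠ j`, and moves `x j` to the residual intersection with the osculating
parabola. At the branch divisor `T (f) ≡ 9 f` modulo `f ^ 2`, so no power of `T` is the identity, and the elements
fixed by `T` are algebraic over the other coordinates.
-/

set_option autoImplicit false
set_option linter.unusedSectionVars false

namespace Pool.Agent.N128.DQ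

open MvPolynomial Pool.Agent.R867.Mov

universe u v w

section Ord

variable {k : Type u} {K : Type v} [Field k] [Field K] [Algebra k K] {ι : Type w} {x : ι → K}
  {f : MvPolynomial ι k}

/-- `z` is in `f ^ n` times the local ring of the divisor `f = 0` -/
def Ord (x : ι → K) (f : MvPolynomial ι k) (n : ℕ) (z : K) : Prop :=
  ∃ α β : MvPolynomial ι k, ¬ f ∣ β ∧ z * aeval x β = aeval x (f ^ n * α)

theorem Ord.poly (hf : Irreducible f) (g : MvPolynomial ι k) : Ord x f 0 (aeval x g) :=
  ⟨g, 1, fun h => hf.not_isUnit (isUnit_of_dvd_one h), by simp⟩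

theorem Ord.add (hf : Irreducible f) {n : ℕ} {z z' : K} (h : Ord x f n z) (h' : Ord x f n z') :
    Ord x f n (z + z') := by
  obtain ⟨α, β, hβ, he⟩ := h
  obtain ⟨α', β', hβ', he'⟩ := h'
  refine ⟨α * β' + α' * β, β * β', fun h => (hf.prime.dvd_or_dvd h).elim hβ hβ', ?_⟩
  rw [map_mul] at he he' ⊢
  rw [map_mul, map_add, map_mul, map_mul]
  linear_combination (aeval x β') * he + (aeval x β) * he'

theorem Ord.mul (hf : Irreducible f) {n m : ℕ} {z z' : K} (h : Ord x f n z) (h' : Ord x f m z') :
    Ord x f (n + m) (z * z') := by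
  obtain ⟨α, β, hβ, he⟩ := h
  obtain ⟨α', β', hβ', he'⟩ := h'
  refine ⟨α * α', β * β', fun h => (hf.prime.dvd_or_dvd h).elim hβ hβ', ?_⟩
  rw [map_mul, map_mul, map_mul, pow_add, map_mul]
  rw [map_mul] at he he'
  calc z * z' * (aeval x β * aeval x β') = (z * aeval x β) * (z' * aeval x β') := by ring
    _ = _ := by rw [he, he']; ring

theorem Ord.neg {n : ℕ} {z : K} (h : Ord x f n z) : Ord x f n (-z) := by
  obtain ⟨α, β, hβ, he⟩ := h
  exact ⟨-α, β, hβ, by rw [mul_neg, map_neg, ← he]; ring⟩

theorem Ord.sub (hf : Irreducible f) {n : ℕ} {z z' : K} (h : Ord x f n z) (h' : Ord x f n z') :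
    Ord x f n (z - z') := by
  rw [sub_eq_add_neg]
  exact h.add hf h'.neg

theorem Ord.mono {n m : ℕ} (hnm : n ≤ m) {z : K} (h : Ord x f m z) : Ord x f n z := by
  obtain ⟨α, β, hβ, he⟩ := h
  refine ⟨f ^ (m - n) * α, β, hβ, ?_⟩
  rw [he, ← mul_assoc, ← pow_add, Nat.add_sub_cancel' hnm]

theorem Ord.zero (hf : Irreducible f) (n : ℕ) : Ord x f n 0 :=
  ⟨0, 1, fun h => hf.not_isUnit (isUnit_of_dvd_one h), by simp⟩

/-- dividing by a unit -/
theorem Ord.of_mul (hf : Irreducible f) {n : ℕ} {z : K} {β : MvPolynomial ι k} (hβ : ¬ f ∣ β)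
    (h : Ord x f n (z * aeval x β)) : Ord x f n z := by
  obtain ⟨α', β', hβ', he'⟩ := h
  refine ⟨α', β * β', fun h => (hf.prime.dvd_or_dvd h).elim hβ hβ', ?_⟩
  rw [← he', map_mul]
  ring

theorem Ord.self (hf : Irreducible f) (n : ℕ) (α : MvPolynomial ι k) :
    Ord x f n (aeval x (f ^ n * α)) :=
  ⟨α, 1, fun h => hf.not_isUnit (isUnit_of_dvd_one h), by simp⟩

/-- `T` is the identity modulo `f` on polynomials -/
theorem sub_poly (hf : Irreducible f) {T : K →ₐ[k] K} (hT : ∀ i, Ord x f 1 (T (x i) - x i))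
    (g : MvPolynomial ι k) : Ord x f 1 (T (aeval x g) - aeval x g) := by
  induction g using MvPolynomial.induction_on with
  | C a =>
    rw [MvPolynomial.algHom_C, T.commutes, sub_self]
    exact Ord.zero hf 1
  | add p q hp hq =>
    have : T (aeval x (p + q)) - aeval x (p + q) =
        (T (aeval x p) - aeval x p) + (T (aeval x q) - aeval x q) := by
      rw [map_add, map_add]
      ring
    rw [this]
    exact hp.add hf hq
  | mul_X p i hp =>
    have h0 : Ord x f 0 (T (aeval x p)) := by
      have h1 := (hp.mono (Nat.zero_le 1)).add hf (Ord.poly (x := x) hf p)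
      rwa [sub_add_cancel] at h1
    have h2 : T (aeval x (p * X i)) - aeval x (p * X i) =
        T (aeval x p) * (T (x i) - x i) + (T (aeval x p) - aeval x p) *
          aeval x (X i : MvPolynomial ι k) := by
      rw [map_mul, map_mul, aeval_X]
      ring
    rw [h2]
    have h3 := h0.mul hf (hT i)
    have h4 := hp.mul hf (Ord.poly (x := x) hf (X i))
    rw [zero_add] at h3
    rw [add_zero] at h4
    exact h3.add hf h4

/-- `T` preserves the powers of the maximal ideal -/
theorem Ord.map (hf : Irreducible f) {T : K →ₐ[k] K} (hT : ∀ i, Ord x f 1 (T (x i) - x i)) {n : ℕ}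
    {z : K} (h : Ord x f n z) : Ord x f n (T z) := by
  obtain ⟨α, β, hβ, he⟩ := h
  obtain ⟨α₁, β₁, hβ₁, he₁⟩ := sub_poly hf hT β
  have hα : Ord x f 0 (T (aeval x α)) := by
    have h1 : Ord x f 0 (T (aeval x α) - aeval x α) := (sub_poly hf hT α).mono (Nat.zero_le 1)
    have h2 := h1.add hf (Ord.poly (x := x) hf α)
    rwa [sub_add_cancel] at h2
  have hF1 : Ord x f 1 (aeval x f) := by
    simpa using Ord.self (x := x) hf 1 (1 : MvPolynomial ι k)
  have hF : Ord x f 1 (T (aeval x f)) := by
    have h1 := (sub_poly hf hT f).add hf hF1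
    rwa [sub_add_cancel] at h1
  have hFn : Ord x f n (T (aeval x f) ^ n) := by
    clear he hα
    induction n with
    | zero =>
      rw [pow_zero]
      simpa using Ord.poly (x := x) hf 1
    | succ n ih =>
      rw [pow_succ]
      exact ih.mul hf hF
  have h1 : T z * T (aeval x β) = T (aeval x f) ^ n * T (aeval x α) := by
    rw [← map_mul, he, map_mul, map_pow, map_mul, map_pow]
  have h2 : T (aeval x β) * aeval x β₁ = aeval x (β * β₁ + f * α₁) := by
    rw [map_add, map_mul]
    rw [pow_one] at he₁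
    linear_combination he₁
  have h3 : ¬ f ∣ β * β₁ + f * α₁ := by
    intro h
    have h4 := (dvd_add_left (Dvd.intro _ rfl)).mp h
    exact (hf.prime.dvd_or_dvd h4).elim hβ hβ₁
  apply Ord.of_mul hf h3
  have h4 : T z * aeval x (β * β₁ + f * α₁) =
      (T (aeval x f) ^ n * T (aeval x α)) * aeval x β₁ := by
    rw [← h2, ← h1]
    ring
  rw [h4]
  have h5 := (hFn.mul hf hα).mul hf (Ord.poly (x := x) hf β₁)
  simpa using h5

end Ord

section Fix

variable {k K : Type u} [Field k] [CharZero k] [Field K] [Algebra k K] {ι : Type w} [DecidableEq ι]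
  {x : ι → K} {f : MvPolynomial ι k}

/-- `T f ≡ (1 + e) f` modulo `f ^ 2`, and `T` is the identity modulo `f` -/
theorem mult (hx : AlgebraicIndependent k x) (hf : Irreducible f) {j : ι} (h1 : 1 ≤ degreeOf j f)
    {C' D' : MvPolynomial ι k} {e : k} {m : ℕ} (hC : f ∣ C' - C e * pderiv j f ^ m)
    (hD : f ∣ D' - pderiv j f ^ (m + 1))
    {T : K →ₐ[k] K} (hT : ∀ i, i ≠ j → T (x i) = x i)
    (hTj : T (x j) = x j + aeval x (f * C') / aeval x D') :
    (∀ i, Ord x f 1 (T (x i) - x i)) ∧
      Ord x f 2 (T (aeval x f) - algebraMap k K (1 + e) * aeval x f) := by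
  have hq := not_dvd_pderiv h1
  have hp := hf.prime
  have hDf : ¬ f ∣ D' := by
    intro h
    have h2 := dvd_sub h hD
    rw [sub_sub_cancel] at h2
    exact hq (hp.dvd_of_dvd_pow h2)
  have hD0 : aeval x D' ≠ 0 := by
    intro h0
    apply hDf
    have : D' = 0 := hx (h0.trans (map_zero _).symm)
    rw [this]
    exact dvd_zero _
  obtain ⟨h, hh⟩ : ∃ h, h = aeval x (f * C') / aeval x D' := ⟨_, rfl⟩
  rw [← hh] at hTj
  have hhD : h * aeval x D' = aeval x (f * C') := by
    rw [hh]
    exact div_mul_cancel₀ _ hD0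
  have hO1 : Ord x f 1 h := ⟨C', D', hDf, by rw [hhD, pow_one]⟩
  have hTx : ∀ i, Ord x f 1 (T (x i) - x i) := by
    intro i
    by_cases hi : i = j
    · rw [hi, hTj, add_sub_cancel_left]
      exact hO1
    · rw [hT i hi, sub_self]
      exact Ord.zero hf 1
  refine ⟨hTx, ?_⟩
  have hTf : T (aeval x f) = ∑ i ∈ Finset.range (degreeOf j f + 1),
      aeval x ((tay j f).coeff i) * h ^ i := by
    rw [← tay_sum x j h f le_rfl]
    have h2 : T (aeval x f) = aeval (fun i => T (x i)) f := by
      rw [← MvPolynomial.comp_aeval_apply]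
    rw [h2]
    congr 1
    congr 1
    funext i
    by_cases hi : i = j
    · rw [hi, hTj, Function.update_self]
    · rw [hT i hi, Function.update_of_ne hi]
  obtain ⟨d, hd⟩ : ∃ d, degreeOf j f + 1 = d + 2 := ⟨degreeOf j f - 1, by omega⟩
  rw [hTf, hd, Finset.sum_range_succ', Finset.sum_range_succ']
  simp only [zero_add, pow_zero, mul_one, pow_one, tay_zero, tay_one]
  have hhi : ∀ i : ℕ, Ord x f 0 (h ^ i) := by
    intro i
    induction i with
    | zero =>
      rw [pow_zero]
      simpa using Ord.poly (x := x) hf 1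
    | succ i ih =>
      rw [pow_succ]
      have h3 := ih.mul hf (hO1.mono (Nat.zero_le 1))
      rwa [add_zero] at h3
  have hs : Ord x f 2 (∑ i ∈ Finset.range d, aeval x ((tay j f).coeff (i + 1 + 1)) *
      h ^ (i + 1 + 1)) := by
    refine Finset.sum_induction _ (Ord x f 2) (fun a b ha hb => ha.add hf hb) (Ord.zero hf 2) ?_
    intro i _
    have e : h ^ (i + 1 + 1) = (h * h) * h ^ i := by ring
    rw [e]
    have h3 := (Ord.poly (x := x) hf ((tay j f).coeff (i + 1 + 1))).mul hf
      ((hO1.mul hf hO1).mul hf (hhi i))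
    simpa using h3
  have h8 : Ord x f 2 (aeval x (pderiv j f) * h - algebraMap k K e * aeval x f) := by
    apply Ord.of_mul hf hDf
    have h9 : f ∣ pderiv j f * C' - C e * D' := by
      have e1 : pderiv j f * C' - C e * D' =
          pderiv j f * (C' - C e * pderiv j f ^ m) - C e * (D' - pderiv j f ^ (m + 1)) := by
        ring
      rw [e1]
      exact dvd_sub (hC.mul_left _) (hD.mul_left _)
    obtain ⟨γ, hγ⟩ := h9
    have h10 : (aeval x (pderiv j f) * h - algebraMap k K e * aeval x f) * aeval x D' =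
        aeval x (f ^ 2 * γ) := by
      have h11 : f ^ 2 * γ = f * (pderiv j f * C' - C e * D') := by
        rw [hγ]
        ring
      rw [h11, map_mul, map_sub, map_mul, map_mul, aeval_C]
      rw [map_mul] at hhD
      linear_combination (aeval x (pderiv j f)) * hhD
    rw [h10]
    exact Ord.self hf 2 γ
  have e2 : (∑ i ∈ Finset.range d, aeval x ((tay j f).coeff (i + 1 + 1)) * h ^ (i + 1 + 1)) +
      aeval x (pderiv j f) * h + aeval x f - algebraMap k K (1 + e) * aeval x f =
      (∑ i ∈ Finset.range d, aeval x ((tay j f).coeff (i + 1 + 1)) * h ^ (i + 1 + 1)) +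
        (aeval x (pderiv j f) * h - algebraMap k K e * aeval x f) := by
    rw [map_add, map_one]
    ring
  rw [e2]
  exact hs.add hf h8

/-- no power of `T` fixes `f` -/
theorem pow_ne (hx : AlgebraicIndependent k x) (hf : Irreducible f)
    {T : K →ₐ[k] K} (hT : ∀ i, Ord x f 1 (T (x i) - x i)) {μ : k}
    (h9 : Ord x f 2 (T (aeval x f) - algebraMap k K μ * aeval x f)) {N : ℕ} (hN : μ ^ N ≠ 1) :
    (T ^ N) (aeval x f) ≠ aeval x f := by
  have hind : ∀ n : ℕ, Ord x f 2 ((T ^ n) (aeval x f) - algebraMap k K μ ^ n * aeval x f) := by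
    intro n
    induction n with
    | zero =>
      rw [pow_zero, pow_zero, one_mul, AlgHom.one_apply, sub_self]
      exact Ord.zero hf 2
    | succ n ih =>
      have h1 := ih.map hf hT
      have h2 : (T ^ (n + 1)) (aeval x f) = T ((T ^ n) (aeval x f)) := by
        rw [pow_succ', AlgHom.mul_apply]
      have h3 : (T ^ (n + 1)) (aeval x f) - algebraMap k K μ ^ (n + 1) * aeval x f =
          T ((T ^ n) (aeval x f) - algebraMap k K μ ^ n * aeval x f) +
            algebraMap k K μ ^ n * (T (aeval x f) - algebraMap k K μ * aeval x f) := by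
        rw [h2, map_sub, map_mul, map_pow, T.commutes]
        ring
      rw [h3]
      have h4 : (algebraMap k K μ ^ n : K) = aeval x (C μ ^ n : MvPolynomial ι k) := by
        rw [map_pow, aeval_C]
      have h5 := (Ord.poly (x := x) hf (C μ ^ n)).mul hf h9
      rw [zero_add, ← h4] at h5
      exact h1.add hf h5
  intro h0
  obtain ⟨α, β, hβ, he⟩ := hind N
  rw [h0] at he
  have h1 : (1 - C μ ^ N) * f * β = f ^ 2 * α := by
    apply hx
    rw [← he, map_mul, map_mul, map_sub, map_one, map_pow, aeval_C]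
    ring
  have h2 : (1 - C μ ^ N) * β = f * α := by
    apply mul_left_cancel₀ hf.ne_zero
    linear_combination h1
  have h3 : (1 : MvPolynomial ι k) - C μ ^ N = C (1 - μ ^ N) := by
    rw [C_sub, C_1, C_pow]
  rw [h3] at h2
  apply hβ
  refine dvd_of_unit_mul (a := (1 - μ ^ N : k)) ?_ ⟨α, h2⟩
  intro h4
  exact hN (by linear_combination -h4)

theorem nine_pow {N : ℕ} (hN : 1 ≤ N) : (1 + 8 : k) ^ N ≠ 1 := by
  intro h5
  have h6 : (9 : ℕ) ^ N = 1 := by
    have h7 : (1 + 8 : k) = ((9 : ℕ) : k) := by norm_num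
    rw [h7] at h5
    exact_mod_cast h5
  have h7 : (9 : ℕ) ^ 1 ≤ 9 ^ N := Nat.pow_le_pow_right (by norm_num) hN
  omega

theorem eight_pow {N : ℕ} (hN : 1 ≤ N) : (1 + (-9) : k) ^ N ≠ 1 := by
  intro h5
  have h8 : ((1 + (-9) : k) ^ N) ^ 2 = 1 := by rw [h5, one_pow]
  have h6 : (64 : ℕ) ^ N = 1 := by
    have h7 : ((1 + (-9) : k) ^ N) ^ 2 = ((64 : ℕ) : k) ^ N := by
      rw [← pow_mul, mul_comm, pow_mul]
      congr 1
      norm_num
    rw [h7] at h8
    exact_mod_cast h8
  have h7 : (64 : ℕ) ^ 1 ≤ 64 ^ N := Nat.pow_le_pow_right (by norm_num) hN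
  omega

/-- the elements fixed by `T` are algebraic over the coordinates fixed by `T` -/
theorem fixed_mem {w : K} {r : ℕ} (hr : 1 ≤ r)
    (hw : w ^ r = aeval x f)
    (htop : IntermediateField.adjoin k (insert w (Set.range x)) = ⊤) {j : ι}
    {T : K →ₐ[k] K} (hT : ∀ i, i ≠ j → T (x i) = x i)
    (hpow : ∀ N : ℕ, 1 ≤ N → (T ^ N) (aeval x f) ≠ aeval x f)
    {a : K} (ha : T a = a) : a ∈ cl k (x '' {j}ᶜ) := by
  by_contra hna
  have h1 : a ∈ cl k (insert (x j) (x '' {j}ᶜ)) := by
    refine cl_mono ?_ (mem_cl_all hr hw htop a)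
    rintro _ ⟨i, rfl⟩
    by_cases hi : i = j
    · rw [hi]
      exact Set.mem_insert _ _
    · exact Set.mem_insert_of_mem _ ⟨i, hi, rfl⟩
  have h2 := cl_exch h1 hna
  rw [mem_cl_iff] at h2
  obtain ⟨E, hE⟩ : ∃ E : IntermediateField k K,
    E = IntermediateField.adjoin k (insert a (x '' {j}ᶜ)) := ⟨_, rfl⟩
  rw [← hE] at h2
  have hfix : ∀ e : E, T (e : K) = e := by
    have h3 : E ≤ (AlgHom.equalizer T (AlgHom.id k K) : Subalgebra k K).toIntermediateField (by
        intro z hz
        change T z⁻¹ = z⁻¹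
        rw [map_inv₀]
        congr 1) := by
      rw [hE, IntermediateField.adjoin_le_iff]
      rintro z (rfl | ⟨i, hi, rfl⟩)
      · exact ha
      · exact hT i hi
    intro e
    exact h3 e.2
  let T' : K →ₐ[E] K :=
    { T.toRingHom with
      commutes' := fun e => hfix e }
  have hT'T : ∀ z, T' z = T z := fun _ => rfl
  have hpw : ∀ (n : ℕ) (z : K), (T' ^ n) z = (T ^ n) z := by
    intro n
    induction n with
    | zero => intro z; rfl
    | succ n ih =>
      intro z
      rw [pow_succ', pow_succ', AlgHom.mul_apply, AlgHom.mul_apply, ih, hT'T]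
  have hint : IsIntegral E (x j) := h2.isIntegral
  have hroot : ∀ n : ℕ, (T' ^ n) (x j) ∈ (minpoly E (x j)).rootSet K := by
    intro n
    rw [Polynomial.mem_rootSet]
    refine ⟨minpoly.ne_zero hint, ?_⟩
    rw [Polynomial.aeval_algHom_apply, minpoly.aeval, map_zero]
  have hfin : Finite ((minpoly E (x j)).rootSet K) := (Polynomial.rootSet_finite _ _).to_subtype
  obtain ⟨n, m, hnm, he⟩ := Finite.exists_ne_map_eq_of_infinite
    (fun n : ℕ => (⟨(T' ^ n) (x j), hroot n⟩ : (minpoly E (x j)).rootSet K))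
  have he' : (T ^ n) (x j) = (T ^ m) (x j) := by
    have := congrArg Subtype.val he
    simp only [hpw] at this
    exact this
  have key : ∀ n m : ℕ, n < m → (T ^ n) (x j) = (T ^ m) (x j) → False := by
    intro n m hlt he
    have h3 : (T ^ m) (x j) = (T ^ n) ((T ^ (m - n)) (x j)) := by
      rw [← AlgHom.mul_apply, ← pow_add]
      congr 2
      omega
    rw [h3] at he
    have h4 : x j = (T ^ (m - n)) (x j) := (T ^ n).toRingHom.injective he
    have h5 : ∀ (l : ℕ) (i : ι), i ≠ j → (T ^ l) (x i) = x i := by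
      intro l i hi
      induction l with
      | zero => rfl
      | succ l ih => rw [pow_succ', AlgHom.mul_apply, ih, hT i hi]
    apply hpow (m - n) (by omega)
    have h6 : (T ^ (m - n)) (aeval x f) = aeval (fun i => (T ^ (m - n)) (x i)) f := by
      rw [← MvPolynomial.comp_aeval_apply]
    rw [h6]
    congr 1
    congr 1
    funext i
    by_cases hi : i = j
    · rw [hi]
      exact h4.symm
    · exact h5 _ i hi
  rcases lt_or_gt_of_ne hnm with hlt | hlt
  · exact key n m hlt he'
  · exact key m n hlt he'.symm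

end Fix

end Pool.Agent.N128.DQ
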