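import Pool.Agent.N128.DQ.Root
import Pool.Agent.N128.DQ.Prep

/-!
# Double covers of degree at most four in a pair of variables and in all the other variables

`w ^ 2 = f`, `f` irreducible, of total degree at most four in two variables `p`, `q` and of degree at most four in
every other variable, such that the general point of the branch curve of the general fibre is not a flex.
-/

set_option autoImplicit false
set_option linter.unusedSectionVars false
set_option maxHeartbeats 400000

namespace Pool.Agent.N128.DQ

open MvPolynomial Pool.Agent.R867.Mov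

universe u v w

section Fam

variable {k K : Type u} [Field k] [CharZero k] [Field K] [Algebra k K] {ι : Type w} [DecidableEq ι]
  {x : ι → K} {f : MvPolynomial ι k} {w : K} {E : Type v} [Field E] [Algebra k E] [Algebra K E]
  [IsScalarTower k K E]

/-- the step to the residual intersection -/
noncomputable def hh (x : ι → K) (p q : ι) (f : MvPolynomial ι k) (t : E) : E :=
  ev2 (fun i => algebraMap K E (x i)) t (Polynomial.C f * CC p q f) /
    ev2 (fun i => algebraMap K E (x i)) t (BB p q f)

/-- the moved point -/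
noncomputable def pt (x : ι → K) (p q : ι) (f : MvPolynomial ι k) (t : E) : ι → E :=
  Function.update (Function.update (fun i => algebraMap K E (x i)) q
    (algebraMap K E (x q) + t * hh x p q f t)) p (algebraMap K E (x p) + hh x p q f t)

/-- the moved square root -/
noncomputable def wt (x : ι → K) (w : K) (p q : ι) (f : MvPolynomial ι k) (t : E) : E :=
  algebraMap K E w * (8 * ev2 (fun i => algebraMap K E (x i)) t (Polynomial.C f) ^ 2 +
    4 * ev2 (fun i => algebraMap K E (x i)) t (Polynomial.C f) *
      ev2 (fun i => algebraMap K E (x i)) t (D1 p q f) * hh x p q f t +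
    (4 * ev2 (fun i => algebraMap K E (x i)) t (Polynomial.C f) *
      ev2 (fun i => algebraMap K E (x i)) t (D2' p q f) -
      ev2 (fun i => algebraMap K E (x i)) t (D1 p q f) ^ 2) * hh x p q f t ^ 2) /
    (8 * ev2 (fun i => algebraMap K E (x i)) t (Polynomial.C f) ^ 2)

theorem aeval_up (x : ι → K) (G : MvPolynomial ι k) :
    aeval (fun i => algebraMap K E (x i)) G = algebraMap K E (aeval x G) :=
  MvPolynomial.aeval_algebraMap_apply _ _ _

theorem wt_sq (hx : AlgebraicIndependent k x) (hf : Irreducible f) (hw : w ^ 2 = aeval x f)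
    {p q : ι} (hpq : q ≠ p) (h4 : ∀ m ∈ f.support, m p + m q ≤ 4) {t : E}
    (hB : ev2 (fun i => algebraMap K E (x i)) t (BB p q f) ≠ 0) :
    wt x w p q f t ^ 2 = aeval (pt x p q f t) f := by
  have hcE : CharZero E := charZero_of_injective_algebraMap (algebraMap k E).injective
  have hF : aeval x f ≠ 0 := fun h0 => hf.ne_zero (hx (h0.trans (map_zero _).symm))
  have hF' : ev2 (fun i => algebraMap K E (x i)) t (Polynomial.C f) ≠ 0 := by
    rw [ev2_C, aeval_up, Ne, map_eq_zero]
    exact hF
  have hexp := expand hpq h4 (fun i => algebraMap K E (x i)) t (hh x p q f t)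
  beta_reduce at hexp
  unfold pt
  rw [hexp]
  have hid := ident2 (F := ev2 (fun i => algebraMap K E (x i)) t (Polynomial.C f))
    (a1 := ev2 (fun i => algebraMap K E (x i)) t (D1 p q f))
    (a2 := ev2 (fun i => algebraMap K E (x i)) t (D2' p q f))
    (a3 := ev2 (fun i => algebraMap K E (x i)) t (D3' p q f))
    (a4 := ev2 (fun i => algebraMap K E (x i)) t (D4' p q f)) (h := hh x p q f t)
    (w := algebraMap K E w) hF' (by rw [ev2_C, aeval_up, ← hw, map_pow]) (by
      have h5 : hh x p q f t * ev2 (fun i => algebraMap K E (x i)) t (BB p q f) =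
          ev2 (fun i => algebraMap K E (x i)) t (Polynomial.C f * CC p q f) :=
        div_mul_cancel₀ _ hB
      unfold BB CC at h5
      simp only [map_sub, map_mul, map_add, map_pow, map_ofNat] at h5
      linear_combination h5)
  unfold wt
  rw [hid, ev2_C]

/-- the homomorphism given by a direction -/
theorem hom_of (hx : AlgebraicIndependent k x) (hf : Irreducible f) (hw : w ^ 2 = aeval x f)
    (htop : IntermediateField.adjoin k (insert w (Set.range x)) = ⊤)
    {p q : ι} (hpq : q ≠ p) (h4 : ∀ m ∈ f.support, m p + m q ≤ 4) {t : E}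
    (hB : ev2 (fun i => algebraMap K E (x i)) t (BB p q f) ≠ 0)
    (hind : AlgebraicIndependent k (pt x p q f t)) :
    ∃ φ : K →ₐ[k] E, (∀ i, φ (x i) = pt x p q f t i) ∧ φ w = wt x w p q f t :=
  exists_hom hf (r := 2) (by norm_num) hx hw htop hind (wt_sq hx hf hw hpq h4 hB)

end Fam

section Regular

variable {k K : Type u} [Field k] [CharZero k] [Field K] [Algebra k K] {ι : Type w} [DecidableEq ι]
  {x : ι → K} {f : MvPolynomial ι k} {w : K} {L : Type v} [Field L] [Algebra k L] [Algebra K L]
  [IsScalarTower k K L] {t₀ : L}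

theorem ev2_eq {E : Type v} [Field E] [Algebra k E] [Algebra K E] [IsScalarTower k K E] (t : E)
    (P : Polynomial (MvPolynomial ι k)) : ev2 (fun i => algebraMap K E (x i)) t P =
      Polynomial.aeval t (P.map (aeval x : MvPolynomial ι k →ₐ[k] K).toRingHom) := by
  rw [ev2_apply, Polynomial.aeval_def, Polynomial.eval₂_map]
  congr 1
  refine RingHom.ext fun z => ?_
  exact aeval_up x z

theorem reg_ev2 (P : Polynomial (MvPolynomial ι k)) :
    Reg t₀ (ev2 (fun i => algebraMap K (Rt 1 K) (x i)) (tt K) P)
      (ev2 (fun i => algebraMap K L (x i)) t₀ P) := by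
  rw [ev2_eq, ev2_eq]
  exact Reg.poly t₀ _

theorem reg_hh {p q : ι} (hB : ev2 (fun i => algebraMap K L (x i)) t₀ (BB p q f) ≠ 0) :
    Reg t₀ (hh x p q f (tt K)) (hh x p q f t₀) :=
  (reg_ev2 _).div (reg_ev2 _) hB

theorem reg_pt {p q : ι} (hB : ev2 (fun i => algebraMap K L (x i)) t₀ (BB p q f) ≠ 0) (i : ι) :
    Reg t₀ (pt x p q f (tt K) i) (pt x p q f t₀ i) := by
  unfold pt
  have h := reg_hh (x := x) hB
  by_cases hi : i = p
  · rw [hi, Function.update_self, Function.update_self]
    exact (Reg.const t₀ _).add h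
  · rw [Function.update_of_ne hi, Function.update_of_ne hi]
    by_cases hj : i = q
    · rw [hj, Function.update_self, Function.update_self]
      exact (Reg.const t₀ _).add ((Reg.var t₀).mul h)
    · rw [Function.update_of_ne hj, Function.update_of_ne hj]
      exact Reg.const t₀ _

theorem reg_num (n : ℕ) [n.AtLeastTwo] : Reg t₀ (OfNat.ofNat n : Rt 1 K) (OfNat.ofNat n : L) := by
  have h := Reg.const (K := K) t₀ (OfNat.ofNat n : K)
  rwa [map_ofNat, map_ofNat] at h

theorem reg_wt (hx : AlgebraicIndependent k x) (hf : Irreducible f) {p q : ι}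
    (hB : ev2 (fun i => algebraMap K L (x i)) t₀ (BB p q f) ≠ 0) :
    Reg t₀ (wt x w p q f (tt K)) (wt x w p q f t₀) := by
  have hcL : CharZero L := charZero_of_injective_algebraMap (algebraMap k L).injective
  have h := reg_hh (x := x) hB
  unfold wt
  refine Reg.div ?_ ?_ ?_
  · refine (Reg.const t₀ w).mul ?_
    refine Reg.add (Reg.add ((reg_num 8).mul ((reg_ev2 _).pow 2))
      ((((reg_num 4).mul (reg_ev2 _)).mul (reg_ev2 _)).mul h)) ?_
    exact (((((reg_num 4).mul (reg_ev2 _)).mul (reg_ev2 _)).sub ((reg_ev2 _).pow 2))).mul (h.pow 2)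
  · exact (reg_num 8).mul ((reg_ev2 _).pow 2)
  · have hF : aeval x f ≠ 0 := fun h0 => hf.ne_zero (hx (h0.trans (map_zero _).symm))
    rw [ev2_C, aeval_up]
    refine mul_ne_zero (by norm_num) (pow_ne_zero _ ?_)
    rw [Ne, map_eq_zero]
    exact hF

end Regular

section Base

variable {k K : Type u} [Field k] [CharZero k] [Field K] [Algebra k K] {ι : Type w} [DecidableEq ι]
  {x : ι → K} {f : MvPolynomial ι k} {w : K}

theorem ev2_zero (y : ι → K) (P : Polynomial (MvPolynomial ι k)) :
    ev2 y 0 P = aeval y (P.coeff 0) := by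
  rw [ev2_apply, Polynomial.eval₂_at_zero]
  rfl

theorem CC_zero (p q : ι) (f : MvPolynomial ι k) : (CC p q f).coeff 0 = C2 p f := by
  unfold CC C2 D1 D2' D3'
  simp only [Polynomial.coeff_zero_eq_eval_zero, Polynomial.eval_mul, Polynomial.eval_add,
    Polynomial.eval_sub, Polynomial.eval_pow, Polynomial.eval_C, Polynomial.eval_X,
    Polynomial.eval_ofNat, ga0, tay_one]
  ring

theorem BB_zero (p q : ι) (f : MvPolynomial ι k) : (BB p q f).coeff 0 = D2 p f := by
  unfold BB D2 D1 D2' D4'
  simp only [Polynomial.coeff_zero_eq_eval_zero, Polynomial.eval_mul, Polynomial.eval_add,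
    Polynomial.eval_sub, Polynomial.eval_pow, Polynomial.eval_C, Polynomial.eval_X,
    Polynomial.eval_ofNat, ga0, tay_one]
  ring

/-- the base step -/
theorem base (hx : AlgebraicIndependent k x) (hf : Irreducible f) (hw : w ^ 2 = aeval x f)
    (htop : IntermediateField.adjoin k (insert w (Set.range x)) = ⊤)
    {p q : ι} (hpq : q ≠ p) (h4 : ∀ m ∈ f.support, m p + m q ≤ 4) (hH : ¬ f ∣ Hs p q f)
    (a : K) (ha : Imm k a) : a ∈ cl k (x '' {p, q}ᶜ) := by
  obtain ⟨hdp, -⟩ := degs hH
  have hp4 : degreeOf p f ≤ 4 := by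
    rw [degreeOf_le_iff]
    intro m hm
    have := h4 m hm
    omega
  have hnq := not_dvd_pderiv hdp
  have hD0 : aeval x (D2 p f) ≠ 0 := fun h0 =>
    ne_zero_of_dvd hf (D2_dvd p f) hnq (hx (h0.trans (map_zero _).symm))
  -- the direction `0`
  have hid : (fun i => algebraMap K K (x i)) = x := rfl
  have hB0 : ev2 (fun i => algebraMap K K (x i)) (0 : K) (BB p q f) ≠ 0 := by
    rw [hid, ev2_zero, BB_zero]
    exact hD0
  have hh0 : hh x p q f (0 : K) = aeval x (f * C2 p f) / aeval x (D2 p f) := by
    unfold hh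
    rw [hid, ev2_zero, ev2_zero, BB_zero, Polynomial.mul_coeff_zero, Polynomial.coeff_C_zero,
      CC_zero]
  have hpt0 : pt x p q f (0 : K) = Function.update x p
      (x p + aeval x (f * C2 p f) / aeval x (D2 p f)) := by
    unfold pt
    rw [hh0]
    funext i
    by_cases hi : i = p
    · rw [hi, Function.update_self, Function.update_self]
      rfl
    · rw [Function.update_of_ne hi, Function.update_of_ne hi]
      by_cases hj : i = q
      · rw [hj, Function.update_self, zero_mul, add_zero]
        rfl
      · rw [Function.update_of_ne hj]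
        rfl
  have hnot := notMem_cl_B hx hf hdp (C2_dvd p f) (D2_dvd p f) (by norm_num) hnq
  have hind0 : AlgebraicIndependent k (pt x p q f (0 : K)) := by
    rw [hpt0]
    exact indep_update hx hnot
  obtain ⟨T, hT, hTw⟩ := hom_of hx hf hw htop hpq h4 hB0 hind0
  have hTi : ∀ i, i ≠ p → T (x i) = x i := by
    intro i hi
    rw [hT, hpt0, Function.update_of_ne hi]
  have hTp : T (x p) = x p + aeval x (f * C2 p f) / aeval x (D2 p f) := by
    rw [hT, hpt0, Function.update_self]
  -- the generic direction
  have hBt : ev2 (fun i => algebraMap K (Rt 1 K) (x i)) (tt K) (BB p q f) ≠ 0 := by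
    intro h0
    have h1 := reg_ev2 (x := x) (t₀ := (0 : K)) (BB p q f)
    rw [h0] at h1
    exact hB0 h1.zero_val
  have hindt : AlgebraicIndependent k (pt x p q f (tt K)) := Reg.indep (reg_pt hB0) hind0
  obtain ⟨σ, hσ, hσw⟩ := hom_of hx hf hw htop hpq h4 hBt hindt
  obtain ⟨a', ha'⟩ := ha 1 σ
  have hTa : T a = a' := by
    refine spec_const (t₀ := (0 : K)) htop σ T ?_ ha'.symm
    rintro z (rfl | ⟨i, rfl⟩)
    · rw [hσw, hTw]
      exact reg_wt hx hf hB0
    · rw [hσ, hT]
      exact reg_pt hB0 i
  -- the hyperosculating direction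
  obtain ⟨L, _, _, t₀, hC, hB⟩ := root hx hf hH
  letI : Algebra k L := ((algebraMap K L).comp (algebraMap k K)).toAlgebra
  haveI : IsScalarTower k K L := IsScalarTower.of_algebraMap_eq fun _ => rfl
  have hC' : ev2 (fun i => algebraMap K L (x i)) t₀ (CC p q f) = 0 := by
    rw [ev2_eq]
    exact hC
  have hB' : ev2 (fun i => algebraMap K L (x i)) t₀ (BB p q f) ≠ 0 := by
    rw [ev2_eq]
    exact hB
  have hhL : hh x p q f t₀ = 0 := by
    unfold hh
    rw [map_mul, hC', mul_zero, zero_div]
  have hF : aeval x f ≠ 0 := fun h0 => hf.ne_zero (hx (h0.trans (map_zero _).symm))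
  have haa : algebraMap K L a = algebraMap K L a' := by
    have h1 := spec_const (t₀ := t₀) htop σ (IsScalarTower.toAlgHom k K L) ?_ ha'.symm
    · exact h1
    · have hcL : CharZero L := charZero_of_injective_algebraMap (algebraMap k L).injective
      rintro z (rfl | ⟨i, rfl⟩)
      · rw [hσw]
        have h2 := reg_wt (w := z) hx hf hB'
        have h3 : wt x z p q f t₀ = IsScalarTower.toAlgHom k K L z := by
          unfold wt
          rw [hhL]
          have h5 : ev2 (fun i => algebraMap K L (x i)) t₀ (Polynomial.C f) ≠ 0 := by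
            rw [ev2_C, aeval_up, Ne, map_eq_zero]
            exact hF
          rw [IsScalarTower.coe_toAlgHom']
          field_simp
          ring
        rwa [h3] at h2
      · rw [hσ]
        have h2 := reg_pt (x := x) hB' i
        have h3 : pt x p q f t₀ i = IsScalarTower.toAlgHom k K L (x i) := by
          unfold pt
          rw [hhL, IsScalarTower.coe_toAlgHom']
          by_cases hi : i = p
          · rw [hi, Function.update_self, add_zero]
          · rw [Function.update_of_ne hi]
            by_cases hj : i = q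
            · rw [hj, Function.update_self, mul_zero, add_zero]
            · rw [Function.update_of_ne hj]
        rwa [h3] at h2
  have haa' : a = a' := (algebraMap K L).injective haa
  rw [← haa'] at hTa
  obtain ⟨hO, h9⟩ := mult hx hf hdp (C2_dvd p f) (D2_dvd p f) hTi hTp
  have hcl : a ∈ cl k (x '' {p}ᶜ) :=
    fixed_mem (r := 2) (by norm_num) hw htop hTi (fun N hN => pow_ne hx hf hO h9 (nine_pow hN)) hTa
  -- the second variable
  have hset : x '' {p}ᶜ = insert (x q) (x '' {p, q}ᶜ) := by
    rw [← Set.image_insert_eq]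
    congr 1
    ext i
    simp only [Set.mem_compl_iff, Set.mem_singleton_iff, Set.mem_insert_iff, not_or]
    constructor
    · intro h
      by_cases hi : i = q
      · exact Or.inl hi
      · exact Or.inr ⟨h, hi⟩
    · rintro (rfl | ⟨h, -⟩)
      · exact hpq
      · exact h
  rw [hset] at hcl
  refine step_out σ (R := con 1 K) ?_ (subset_cl _ ⟨a', ha'⟩) ?_ hcl
  · rintro _ ⟨i, hi, rfl⟩
    refine subset_cl _ ?_
    simp only [Set.mem_compl_iff, Set.mem_singleton_iff, Set.mem_insert_iff, not_or] at hi
    rw [hσ]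
    unfold pt
    rw [Function.update_of_ne hi.1, Function.update_of_ne hi.2]
    exact ⟨x i, rfl⟩
  · intro h
    obtain ⟨c, hc⟩ := mem_con_cl h
    rw [hσ] at hc
    unfold pt at hc
    rw [Function.update_of_ne hpq, Function.update_self] at hc
    -- `t h` is a constant, so it is zero
    have h1 : tt K * hh x p q f (tt K) = algebraMap K (Rt 1 K) (c - x q) := by
      rw [map_sub, hc]
      ring
    have h2 : Reg (0 : K) (tt K * hh x p q f (tt K)) (0 * hh x p q f (0 : K)) :=
      (Reg.var _).mul (reg_hh hB0)
    rw [h1, zero_mul] at h2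
    have h3 := h2.unique (Reg.const (0 : K) (c - x q))
    have h4 : c - x q = 0 := h3.symm
    rw [h4, map_zero] at h1
    have htt : tt K ≠ 0 := by
      intro h5
      apply tt_not (K := K)
      rw [h5]
      exact isAlgebraic_zero
    have h5 : hh x p q f (tt K) = 0 := (mul_eq_zero.mp h1).resolve_left htt
    have h6 := reg_hh (x := x) hB0
    rw [h5] at h6
    have h7 := h6.zero_val
    rw [hh0] at h7
    apply hnot
    rw [h7, add_zero]
    exfalso
    have h8 : aeval x (f * C2 p f) = 0 := by
      rcases div_eq_zero_iff.mp h7 with h8 | h8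
      · exact h8
      · exact absurd h8 hD0
    rw [map_mul] at h8
    have h9 : C2 p f = 0 := hx (((mul_eq_zero.mp h8).resolve_left hF).trans (map_zero _).symm)
    have h10 := C2_dvd p f
    rw [h9, zero_sub, dvd_neg] at h10
    exact hnq (hf.prime.dvd_of_dvd_pow (dvd_of_unit_mul (by norm_num) h10))

/-- Double covers of degree at most four in a pair of variables and in each of the other ones. -/
theorem main [IsAlgClosed k] [Finite ι] (hf : Irreducible f) {p q : ι} (hpq : q ≠ p)
    (h4 : ∀ m ∈ f.support, m p + m q ≤ 4) (hj : ∀ j, degreeOf j f ≤ 4) (hH : ¬ f ∣ Hs p q f)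
    (hx : AlgebraicIndependent k x) (hw : w ^ 2 = aeval x f)
    (htop : IntermediateField.adjoin k (insert w (Set.range x)) = ⊤) :
    ∃ n, Nonempty (K →ₐ[k] Rt n k) := by
  refine unirational_of_imm ⟨((Set.toFinite (insert w (Set.range x))).toFinset), by
    rw [Set.Finite.coe_toFinset, htop]⟩ ?_
  obtain ⟨hdp, -⟩ := degs hH
  refine all_out hx hf (r := 2) (by norm_num) hw htop (I₀ := {p, q})
    (base hx hf hw htop hpq h4 hH) ?_
  intro j hj' hpos
  obtain ⟨T, hT1, hT2⟩ := self2 hx hf hw htop hpos (hj j)
  refine ⟨T, hT1, ?_⟩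
  rw [hT2]
  exact notMem_cl_A hx hf (i₀ := p) hj' (by simp) hdp (C2_dvd j f) (D2_dvd j f) (by norm_num)
    (not_dvd_pderiv hpos)

end Base

end Pool.Agent.N128.DQ
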