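import Pool.Agent.N128.DQ.Dir

/-!
# A direction in which the osculating parabola hyperosculates

The numerator `CC` has a root `t₀` which is not a root of the denominator `BB`, if the general point of the branch
divisor is not a flex.
-/

set_option autoImplicit false
set_option linter.unusedSectionVars false

namespace Pool.Agent.N128.DQ

open MvPolynomial Pool.Agent.R867.Mov

universe u v w

section Gauss

/-- clearing denominators prime to `π` -/
theorem clearG {R : Type u} [CommRing R] [IsDomain R] {π : R} (hπ : Prime π)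
    (hval : ∀ r : R, r ≠ 0 → ∃ (m : ℕ) (r' : R), r = π ^ m * r' ∧ ¬ π ∣ r')
    {P Q : Polynomial R} (hPn : ¬ Polynomial.C π ∣ P)
    (h : P.map (algebraMap R (FractionRing R)) ∣ Q.map (algebraMap R (FractionRing R))) :
    ∃ (r' : R) (E : Polynomial R), ¬ π ∣ r' ∧ Polynomial.C r' * Q = P * E := by
  obtain ⟨E, hE⟩ := h
  obtain ⟨b, hb⟩ := IsLocalization.integerNormalization_map_to_map (nonZeroDivisors R) E
  obtain ⟨E', hE'⟩ : ∃ E', E' = IsLocalization.integerNormalization (nonZeroDivisors R) E :=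
    ⟨_, rfl⟩
  rw [← hE'] at hb
  have hb0 : (b : R) ≠ 0 := nonZeroDivisors.coe_ne_zero b
  have h1 : Polynomial.C (b : R) * Q = P * E' := by
    apply Polynomial.map_injective _ (IsFractionRing.injective R (FractionRing R))
    rw [Polynomial.map_mul, Polynomial.map_mul, hb, hE, Polynomial.map_C, Algebra.smul_def]
    have h2 : algebraMap R (Polynomial (FractionRing R)) (b : R) =
        Polynomial.C (algebraMap R (FractionRing R) (b : R)) := rfl
    rw [h2]
    ring
  obtain ⟨m, r', hr, hr'⟩ := hval _ hb0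
  have hCπ : Prime (Polynomial.C π) := Polynomial.prime_C_iff.mpr hπ
  have h3 : Polynomial.C π ^ m ∣ P * E' := by
    rw [← h1, hr, Polynomial.C_mul, Polynomial.C_pow, mul_assoc]
    exact Dvd.intro _ rfl
  obtain ⟨E'', hE''⟩ := hCπ.pow_dvd_of_dvd_mul_left m hPn h3
  refine ⟨r', E'', hr', ?_⟩
  apply mul_left_cancel₀ (pow_ne_zero m hCπ.ne_zero)
  rw [hE'', hr, Polynomial.C_mul, Polynomial.C_pow] at h1
  linear_combination h1

theorem gauss {R : Type u} [CommRing R] [IsDomain R] {π : R} (hπ : Prime π)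
    (hval : ∀ r : R, r ≠ 0 → ∃ (m : ℕ) (r' : R), r = π ^ m * r' ∧ ¬ π ∣ r')
    {P Q : Polynomial R} {c : R}
    (hP : 1 ≤ (P.map (Ideal.Quotient.mk (Ideal.span {π}))).natDegree)
    (hQ : Q.map (Ideal.Quotient.mk (Ideal.span {π})) =
      Polynomial.C (Ideal.Quotient.mk (Ideal.span {π}) c)) (hc : ¬ π ∣ c) :
    ¬ P.map (algebraMap R (FractionRing R)) ∣ Q.map (algebraMap R (FractionRing R)) := by
  intro hdvd
  have hdom : IsDomain (R ⧸ Ideal.span {π}) := by
    rw [Ideal.Quotient.isDomain_iff_prime]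
    exact (Ideal.span_singleton_prime hπ.ne_zero).mpr hπ
  have hker : ∀ z : R, Ideal.Quotient.mk (Ideal.span {π}) z = 0 ↔ π ∣ z := fun z => by
    rw [Ideal.Quotient.eq_zero_iff_mem, Ideal.mem_span_singleton]
  have hPn : ¬ Polynomial.C π ∣ P := by
    rintro ⟨P', rfl⟩
    rw [Polynomial.map_mul, Polynomial.map_C, (hker π).mpr dvd_rfl, Polynomial.C_0, zero_mul,
      Polynomial.natDegree_zero] at hP
    omega
  obtain ⟨r', E'', hr', h4⟩ := clearG hπ hval hPn hdvd
  have h5 := congrArg (Polynomial.map (Ideal.Quotient.mk (Ideal.span {π}))) h4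
  rw [Polynomial.map_mul, Polynomial.map_mul, hQ, Polynomial.map_C, ← Polynomial.C_mul] at h5
  have h6 : Ideal.Quotient.mk (Ideal.span {π}) r' * Ideal.Quotient.mk (Ideal.span {π}) c ≠ 0 :=
    mul_ne_zero (fun h => hr' ((hker _).mp h)) (fun h => hc ((hker _).mp h))
  have h7 : (P.map (Ideal.Quotient.mk (Ideal.span {π}))) *
      (E''.map (Ideal.Quotient.mk (Ideal.span {π}))) ≠ 0 := by
    rw [← h5]
    exact fun h => h6 (Polynomial.C_eq_zero.mp h)
  have h8 := congrArg Polynomial.natDegree h5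
  rw [Polynomial.natDegree_C, Polynomial.natDegree_mul (left_ne_zero_of_mul h7)
    (right_ne_zero_of_mul h7)] at h8
  omega

/-- the extension of an injective homomorphism to the fraction field -/
theorem lift_ex {R : Type u} [CommRing R] [IsDomain R] {K : Type v} [Field K] (ev : R →+* K)
    (hev : Function.Injective ev) :
    ∃ φ : FractionRing R →+* K, φ.comp (algebraMap R (FractionRing R)) = ev := by
  refine ⟨IsFractionRing.lift hev, RingHom.ext fun z => ?_⟩
  exact IsFractionRing.lift_algebraMap hev z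

/-- a root of `P` which is not a root of `Q` -/
theorem exists_root {K : Type u} [Field K] {P Q : Polynomial K} (h : ∀ n : ℕ, ¬ P ∣ Q ^ n) :
    ∃ (L : Type u) (_ : Field L) (_ : Algebra K L) (t₀ : L),
      Polynomial.aeval t₀ P = 0 ∧ Polynomial.aeval t₀ Q ≠ 0 := by
  have h1 : Q ∉ (Ideal.span {P}).radical := by
    rintro ⟨n, hn⟩
    exact h n (Ideal.mem_span_singleton.mp hn)
  rw [Ideal.radical_eq_sInf, Submodule.mem_sInf] at h1
  push Not at h1
  obtain ⟨J, ⟨hJ1, hJ2⟩, hQJ⟩ := h1
  have hPJ : P ∈ J := hJ1 (Ideal.mem_span_singleton_self P)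
  obtain ⟨t₀, ht₀⟩ : ∃ t₀ : FractionRing (Polynomial K ⧸ J),
    t₀ = algebraMap (Polynomial K ⧸ J) _ (Ideal.Quotient.mk J Polynomial.X) := ⟨_, rfl⟩
  have hev : ∀ G : Polynomial K, Polynomial.aeval t₀ G =
      algebraMap (Polynomial K ⧸ J) (FractionRing (Polynomial K ⧸ J)) (Ideal.Quotient.mk J G) := by
    intro G
    have h2 : (Polynomial.aeval t₀ : Polynomial K →ₐ[K] FractionRing (Polynomial K ⧸ J)) =
        (IsScalarTower.toAlgHom K (Polynomial K ⧸ J) (FractionRing (Polynomial K ⧸ J))).comp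
          (Ideal.Quotient.mkₐ K J) := by
      apply Polynomial.algHom_ext
      rw [Polynomial.aeval_X, ht₀]
      rfl
    rw [h2]
    rfl
  refine ⟨FractionRing (Polynomial K ⧸ J), inferInstance, inferInstance, t₀, ?_, ?_⟩
  · rw [hev, Ideal.Quotient.eq_zero_iff_mem.mpr hPJ, map_zero]
  · rw [hev]
    intro h0
    apply hQJ
    rw [← Ideal.Quotient.eq_zero_iff_mem]
    exact IsFractionRing.injective (Polynomial K ⧸ J) (FractionRing (Polynomial K ⧸ J))
      (h0.trans (map_zero _).symm)

end Gauss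

section

variable {k : Type u} [Field k] {ι : Type w} [DecidableEq ι]

/-- twice the second fundamental form of the branch divisor -/
noncomputable def Hs (p q : ι) (f : MvPolynomial ι k) : MvPolynomial ι k :=
  pderiv p (pderiv p f) * pderiv q f ^ 2 - 2 * pderiv q (pderiv p f) * pderiv p f * pderiv q f +
    pderiv q (pderiv q f) * pderiv p f ^ 2

/-- half of it -/
noncomputable def hs (p q : ι) (f : MvPolynomial ι k) : MvPolynomial ι k :=
  g p q f 2 0 * pderiv q f ^ 2 - g p q f 1 1 * pderiv p f * pderiv q f +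
    g p q f 0 2 * pderiv p f ^ 2

theorem two_hs (p q : ι) (f : MvPolynomial ι k) : 2 * hs p q f = Hs p q f := by
  unfold Hs hs
  rw [← g20 p q, ← g02 p q, ← g11 p q]
  ring

/-- the shifted direction -/
noncomputable def Y (p q : ι) (f : MvPolynomial ι k) : Polynomial (MvPolynomial ι k) :=
  -Polynomial.C (pderiv p f) + Polynomial.C f * Polynomial.X

/-- the numerator after the substitution -/
noncomputable def Ct (p q : ι) (f : MvPolynomial ι k) : Polynomial (MvPolynomial ι k) :=
  8 * (Polynomial.C (g p q f 3 0) * Polynomial.C (pderiv q f) ^ 3 +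
      Polynomial.C (g p q f 2 1) * Polynomial.C (pderiv q f) ^ 2 * Y p q f +
      Polynomial.C (g p q f 1 2) * Polynomial.C (pderiv q f) * Y p q f ^ 2 +
      Polynomial.C (g p q f 0 3) * Y p q f ^ 3) -
    4 * Polynomial.X * Polynomial.C (pderiv q f) *
      (Polynomial.C (g p q f 2 0) * Polynomial.C (pderiv q f) ^ 2 +
        Polynomial.C (g p q f 1 1) * Polynomial.C (pderiv q f) * Y p q f +
        Polynomial.C (g p q f 0 2) * Y p q f ^ 2) +
    Polynomial.C f * Polynomial.C (pderiv q f) ^ 3 * Polynomial.X ^ 3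

/-- the denominator after the substitution -/
noncomputable def Bt (p q : ι) (f : MvPolynomial ι k) : Polynomial (MvPolynomial ι k) :=
  (4 * (Polynomial.C (g p q f 2 0) * Polynomial.C (pderiv q f) ^ 2 +
        Polynomial.C (g p q f 1 1) * Polynomial.C (pderiv q f) * Y p q f +
        Polynomial.C (g p q f 0 2) * Y p q f ^ 2) -
      Polynomial.C f * Polynomial.C (pderiv q f) ^ 2 * Polynomial.X ^ 2) ^ 2 -
    64 * Polynomial.C f * (Polynomial.C (g p q f 4 0) * Polynomial.C (pderiv q f) ^ 4 +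
      Polynomial.C (g p q f 3 1) * Polynomial.C (pderiv q f) ^ 3 * Y p q f +
      Polynomial.C (g p q f 2 2) * Polynomial.C (pderiv q f) ^ 2 * Y p q f ^ 2 +
      Polynomial.C (g p q f 1 3) * Polynomial.C (pderiv q f) * Y p q f ^ 3 +
      Polynomial.C (g p q f 0 4) * Y p q f ^ 4)

theorem degreeOf_pderiv_le (p q : ι) (f : MvPolynomial ι k) :
    degreeOf q (pderiv p f) ≤ degreeOf q f := by
  classical
  rw [degreeOf_le_iff]
  intro m hm
  rw [mem_support_iff, coeff_pderiv] at hm
  have h1 : m + Finsupp.single p 1 ∈ f.support := by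
    rw [mem_support_iff]
    exact left_ne_zero_of_mul hm
  have h2 := monomial_le_degreeOf q h1
  rw [Finsupp.add_apply] at h2
  omega

theorem degs [CharZero k] {p q : ι} {f : MvPolynomial ι k} (hH : ¬ f ∣ Hs p q f) :
    1 ≤ degreeOf p f ∧ 1 ≤ degreeOf q f := by
  constructor
  · by_contra h
    have h0 : degreeOf p f = 0 := by omega
    apply hH
    unfold Hs
    rw [pderiv_eq_zero_of_degreeOf h0, map_zero, map_zero]
    simp
  · by_contra h
    have h0 : degreeOf q f = 0 := by omega
    have h1 : degreeOf q (pderiv p f) = 0 := by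
      have := degreeOf_pderiv_le p q f
      omega
    apply hH
    unfold Hs
    rw [pderiv_eq_zero_of_degreeOf h0, map_zero, pderiv_eq_zero_of_degreeOf h1]
    simp

/-- the numerator modulo `f` -/
theorem Ct_mod (p q : ι) (f : MvPolynomial ι k) : ∃ d : MvPolynomial ι k,
    (Ct p q f).map (Ideal.Quotient.mk (Ideal.span {f})) =
      Polynomial.C (Ideal.Quotient.mk (Ideal.span {f}) d) -
        Polynomial.C (Ideal.Quotient.mk (Ideal.span {f}) (4 * pderiv q f * hs p q f)) *
          Polynomial.X := by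
  have hf0 : Ideal.Quotient.mk (Ideal.span {f}) f = 0 :=
    Ideal.Quotient.eq_zero_iff_mem.mpr (Ideal.mem_span_singleton_self f)
  refine ⟨8 * (g p q f 3 0 * pderiv q f ^ 3 - g p q f 2 1 * pderiv q f ^ 2 * pderiv p f +
    g p q f 1 2 * pderiv q f * pderiv p f ^ 2 - g p q f 0 3 * pderiv p f ^ 3), ?_⟩
  unfold Ct Y hs
  simp only [Polynomial.map_add, Polynomial.map_sub, Polynomial.map_mul, Polynomial.map_pow,
    Polynomial.map_C, Polynomial.map_X, Polynomial.map_ofNat, Polynomial.map_neg, hf0,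
    Polynomial.C_0, zero_mul, add_zero, map_add, map_sub, map_mul, map_pow, map_ofNat,
    Polynomial.C_add, Polynomial.C_sub, Polynomial.C_mul, Polynomial.C_pow]
  ring

/-- the denominator modulo `f` -/
theorem Bt_mod (p q : ι) (f : MvPolynomial ι k) :
    (Bt p q f).map (Ideal.Quotient.mk (Ideal.span {f})) =
      Polynomial.C (Ideal.Quotient.mk (Ideal.span {f}) (16 * hs p q f ^ 2)) := by
  have hf0 : Ideal.Quotient.mk (Ideal.span {f}) f = 0 :=
    Ideal.Quotient.eq_zero_iff_mem.mpr (Ideal.mem_span_singleton_self f)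
  unfold Bt Y hs
  simp only [Polynomial.map_add, Polynomial.map_sub, Polynomial.map_mul, Polynomial.map_pow,
    Polynomial.map_C, Polynomial.map_X, Polynomial.map_ofNat, Polynomial.map_neg, hf0,
    Polynomial.C_0, zero_mul, mul_zero, sub_zero, add_zero, map_add, map_sub, map_mul, map_pow,
    map_ofNat, Polynomial.C_add, Polynomial.C_sub, Polynomial.C_mul, Polynomial.C_pow]
  ring

/-- `C` divides no power of `B` after the substitution -/
theorem no_dvd_t [CharZero k] {p q : ι} {f : MvPolynomial ι k} (hf : Irreducible f)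
    (hH : ¬ f ∣ Hs p q f) (n : ℕ) :
    ¬ (Ct p q f).map (algebraMap (MvPolynomial ι k) (FractionRing (MvPolynomial ι k))) ∣
      ((Bt p q f).map (algebraMap (MvPolynomial ι k) (FractionRing (MvPolynomial ι k)))) ^ n := by
  have hp := hf.prime
  obtain ⟨-, hq⟩ := degs hH
  have hfq := not_dvd_pderiv hq
  have hh : ¬ f ∣ hs p q f := fun h => hH (by rw [← two_hs]; exact h.mul_left 2)
  have hh' : ¬ f ∣ 16 * hs p q f ^ 2 := by
    intro h
    have h1 : f ∣ C (16 : k) * hs p q f ^ 2 := by
      rwa [show (C (16 : k) : MvPolynomial ι k) = 16 by exact map_ofNat C 16]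
    exact hh (hp.dvd_of_dvd_pow (dvd_of_unit_mul (by norm_num) h1))
  have h4 : ¬ f ∣ 4 * pderiv q f * hs p q f := by
    intro h
    have h1 : f ∣ C (4 : k) * (pderiv q f * hs p q f) := by
      rw [show (C (4 : k) : MvPolynomial ι k) = 4 by exact map_ofNat C 4, ← mul_assoc]
      exact h
    exact (hp.dvd_or_dvd (dvd_of_unit_mul (by norm_num) h1)).elim hfq hh
  rw [← Polynomial.map_pow]
  refine gauss (π := f) hp ?_ (c := (16 * hs p q f ^ 2) ^ n) ?_ ?_ ?_
  · intro r hr
    have h5 : FiniteMultiplicity f r := FiniteMultiplicity.of_not_isUnit hf.not_isUnit hr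
    obtain ⟨c, hc, hc'⟩ := h5.exists_eq_pow_mul_and_not_dvd
    exact ⟨_, c, hc, hc'⟩
  · obtain ⟨d, hd⟩ := Ct_mod p q f
    rw [hd]
    apply Polynomial.le_natDegree_of_ne_zero
    rw [Polynomial.coeff_sub, Polynomial.coeff_C, if_neg one_ne_zero, zero_sub,
      Polynomial.coeff_C_mul, Polynomial.coeff_X_one, mul_one, neg_ne_zero]
    intro h0
    exact h4 (Ideal.mem_span_singleton.mp (Ideal.Quotient.eq_zero_iff_mem.mp h0))
  · rw [Polynomial.map_pow, Bt_mod, ← Polynomial.C_pow, ← map_pow]
  · exact fun h => hh' (hp.dvd_of_dvd_pow h)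

/-- `C` divides no power of `B` -/
theorem no_dvd_F [CharZero k] {p q : ι} {f : MvPolynomial ι k} (hf : Irreducible f)
    (hH : ¬ f ∣ Hs p q f) (n : ℕ) :
    ¬ (CC p q f).map (algebraMap (MvPolynomial ι k) (FractionRing (MvPolynomial ι k))) ∣
      ((BB p q f).map (algebraMap (MvPolynomial ι k) (FractionRing (MvPolynomial ι k)))) ^ n := by
  intro h
  apply no_dvd_t hf hH n
  obtain ⟨A, hA⟩ : ∃ A, A = algebraMap (MvPolynomial ι k) (FractionRing (MvPolynomial ι k)) :=
    ⟨_, rfl⟩
  rw [← hA] at h ⊢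
  have hinj : Function.Injective A := by
    rw [hA]
    exact IsFractionRing.injective _ _
  obtain ⟨-, hq⟩ := degs hH
  have hq0 : A (pderiv q f) ≠ 0 := by
    rw [Ne, map_eq_zero_iff A hinj]
    exact pderiv_ne_zero hq
  have hf0 : A f ≠ 0 := by
    rw [Ne, map_eq_zero_iff A hinj]
    exact hf.ne_zero
  obtain ⟨θ, hθ⟩ : ∃ θ : Polynomial (FractionRing (MvPolynomial ι k)),
      θ = Polynomial.C (A (pderiv q f))⁻¹ * (-Polynomial.C (A (pderiv p f)) +
        Polynomial.C (A f) * Polynomial.X) := ⟨_, rfl⟩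
  have hQθ : Polynomial.C (A (pderiv q f)) * θ = -Polynomial.C (A (pderiv p f)) +
        Polynomial.C (A f) * Polynomial.X := by
    rw [hθ, ← mul_assoc, ← Polynomial.C_mul, mul_inv_cancel₀ hq0, Polynomial.C_1, one_mul]
  have hP : Polynomial.C (A (pderiv p f)) = Polynomial.C (A f) * Polynomial.X -
      Polynomial.C (A (pderiv q f)) * θ := by
    rw [hQθ]
    ring
  have hY : (Y p q f).map A = Polynomial.C (A (pderiv q f)) * θ := by
    rw [hQθ]
    unfold Y
    simp only [Polynomial.map_add, Polynomial.map_neg, Polynomial.map_mul, Polynomial.map_C,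
      Polynomial.map_X]
  have e1 : Polynomial.C (A (pderiv q f)) ^ 3 * ((CC p q f).map A).comp θ =
      (8 * Polynomial.C (A f) ^ 2) * (Ct p q f).map A := by
    unfold CC Ct D1 D2' D3'
    simp only [Polynomial.map_add, Polynomial.map_sub, Polynomial.map_mul, Polynomial.map_pow,
      Polynomial.map_C, Polynomial.map_X, Polynomial.map_ofNat, Polynomial.add_comp,
      Polynomial.sub_comp, Polynomial.mul_comp, Polynomial.pow_comp, Polynomial.C_comp,
      Polynomial.X_comp, Polynomial.ofNat_comp, hY, g10, g01]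
    rw [hP]
    ring
  have e2 : Polynomial.C (A (pderiv q f)) ^ 4 * ((BB p q f).map A).comp θ =
      (Polynomial.C (A f) ^ 2) * (Bt p q f).map A := by
    unfold BB Bt D1 D2' D4'
    simp only [Polynomial.map_add, Polynomial.map_sub, Polynomial.map_mul, Polynomial.map_pow,
      Polynomial.map_C, Polynomial.map_X, Polynomial.map_ofNat, Polynomial.add_comp,
      Polynomial.sub_comp, Polynomial.mul_comp, Polynomial.pow_comp, Polynomial.C_comp,
      Polynomial.X_comp, Polynomial.ofNat_comp, hY, g10, g01]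
    rw [hP]
    ring
  have hu : IsUnit (Polynomial.C (A (pderiv q f))) := Polynomial.isUnit_C.mpr hq0.isUnit
  have hu' : IsUnit (Polynomial.C (A f)) := Polynomial.isUnit_C.mpr hf0.isUnit
  have h1 : ((CC p q f).map A).comp θ ∣ (((BB p q f).map A).comp θ) ^ n := by
    have h2 := map_dvd (Polynomial.compRingHom θ) h
    rw [map_pow] at h2
    exact h2
  have h2 : (Ct p q f).map A ∣ Polynomial.C (A (pderiv q f)) ^ 3 * ((CC p q f).map A).comp θ := by
    rw [e1]
    exact Dvd.intro_left _ rfl
  have h3 : (Ct p q f).map A ∣ (((BB p q f).map A).comp θ) ^ n :=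
    ((hu.pow 3).dvd_mul_left.mp h2).trans h1
  have h4 : (Ct p q f).map A ∣ (Polynomial.C (A f) ^ 2) ^ n * ((Bt p q f).map A) ^ n := by
    rw [← mul_pow, ← e2, mul_pow]
    exact h3.mul_left _
  exact ((hu'.pow 2).pow n).dvd_mul_left.mp h4

/-- The direction in which the parabola hyperosculates. -/
theorem root [CharZero k] {K : Type v} [Field K] [Algebra k K] {x : ι → K}
    (hx : AlgebraicIndependent k x) {p q : ι} {f : MvPolynomial ι k} (hf : Irreducible f)
    (hH : ¬ f ∣ Hs p q f) : ∃ (L : Type v) (_ : Field L) (_ : Algebra K L) (t₀ : L),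
      Polynomial.aeval t₀ ((CC p q f).map (aeval x : MvPolynomial ι k →ₐ[k] K).toRingHom) = 0 ∧
      Polynomial.aeval t₀ ((BB p q f).map (aeval x : MvPolynomial ι k →ₐ[k] K).toRingHom) ≠ 0 := by
  apply exists_root
  intro n h
  apply no_dvd_F hf hH n
  have hinj : Function.Injective (aeval x : MvPolynomial ι k →ₐ[k] K).toRingHom := hx
  obtain ⟨φ, hφc⟩ := lift_ex (aeval x : MvPolynomial ι k →ₐ[k] K).toRingHom hinj
  rw [← hφc, ← Polynomial.map_map, ← Polynomial.map_map, ← Polynomial.map_pow] at h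
  exact (Polynomial.map_dvd_map' φ).mp h

end

end Pool.Agent.N128.DQ
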