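import Pool.Agent.R867.Mov.DC

/-!
# Specialisation of rational functions of one variable

`Reg z v`: the rational function `z` in `K(t)` is regular at the point `t₀` of an extension `L` of `K`, with the value
`v`.
-/

set_option autoImplicit false
set_option linter.unusedSectionVars false

namespace Pool.Agent.N128.DQ

open MvPolynomial Pool.Agent.R867.Mov

universe u v w

section

variable {K : Type u} [Field K] {L : Type v} [Field L] [Algebra K L] {t₀ : L}

/-- `z` is regular at `t₀` with value `v` -/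
def Reg (t₀ : L) (z : Rt 1 K) (v : L) : Prop :=
  ∃ N D : Polynomial K, Polynomial.aeval t₀ D ≠ 0 ∧
    z * Polynomial.aeval (tt K) D = Polynomial.aeval (tt K) N ∧
    v * Polynomial.aeval t₀ D = Polynomial.aeval t₀ N

theorem aeval_tt_ne {P : Polynomial K} (hP : P ≠ 0) : Polynomial.aeval (tt K) P ≠ 0 :=
  fun h => tt_not ⟨P, hP, h⟩

theorem Reg.D_ne {D : Polynomial K} (h : Polynomial.aeval t₀ D ≠ 0) :
    Polynomial.aeval (tt K) D ≠ 0 := by
  apply aeval_tt_ne
  rintro rfl
  exact h (map_zero _)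

theorem Reg.zero_val {v : L} (h : Reg t₀ (0 : Rt 1 K) v) : v = 0 := by
  obtain ⟨N, D, hD, h1, h2⟩ := h
  rw [zero_mul] at h1
  have hN : N = 0 := by
    by_contra h0
    exact aeval_tt_ne h0 h1.symm
  rw [hN, map_zero] at h2
  exact (mul_eq_zero.mp h2).resolve_right hD

theorem Reg.add {z z' : Rt 1 K} {v v' : L} (h : Reg t₀ z v) (h' : Reg t₀ z' v') :
    Reg t₀ (z + z') (v + v') := by
  obtain ⟨N, D, hD, h1, h2⟩ := h
  obtain ⟨N', D', hD', h1', h2'⟩ := h'
  refine ⟨N * D' + N' * D, D * D', ?_, ?_, ?_⟩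
  · rw [map_mul]
    exact mul_ne_zero hD hD'
  · rw [map_mul, map_add, map_mul, map_mul, ← h1, ← h1']
    ring
  · rw [map_mul, map_add, map_mul, map_mul, ← h2, ← h2']
    ring

theorem Reg.mul {z z' : Rt 1 K} {v v' : L} (h : Reg t₀ z v) (h' : Reg t₀ z' v') :
    Reg t₀ (z * z') (v * v') := by
  obtain ⟨N, D, hD, h1, h2⟩ := h
  obtain ⟨N', D', hD', h1', h2'⟩ := h'
  refine ⟨N * N', D * D', ?_, ?_, ?_⟩
  · rw [map_mul]
    exact mul_ne_zero hD hD'
  · rw [map_mul, map_mul, ← h1, ← h1']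
    ring
  · rw [map_mul, map_mul, ← h2, ← h2']
    ring

theorem Reg.neg {z : Rt 1 K} {v : L} (h : Reg t₀ z v) : Reg t₀ (-z) (-v) := by
  obtain ⟨N, D, hD, h1, h2⟩ := h
  exact ⟨-N, D, hD, by rw [map_neg, ← h1, neg_mul], by rw [map_neg, ← h2, neg_mul]⟩

theorem Reg.sub {z z' : Rt 1 K} {v v' : L} (h : Reg t₀ z v) (h' : Reg t₀ z' v') :
    Reg t₀ (z - z') (v - v') := by
  rw [sub_eq_add_neg, sub_eq_add_neg]
  exact h.add h'.neg

theorem Reg.poly (t₀ : L) (P : Polynomial K) :
    Reg t₀ (Polynomial.aeval (tt K) P) (Polynomial.aeval t₀ P) :=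
  ⟨P, 1, by simp, by simp, by simp⟩

theorem Reg.const (t₀ : L) (c : K) : Reg t₀ (algebraMap K (Rt 1 K) c) (algebraMap K L c) := by
  have h := Reg.poly t₀ (Polynomial.C c)
  rwa [Polynomial.aeval_C, Polynomial.aeval_C] at h

theorem Reg.var (t₀ : L) : Reg t₀ (tt K) t₀ := by
  have h := Reg.poly (K := K) t₀ Polynomial.X
  rwa [Polynomial.aeval_X, Polynomial.aeval_X] at h

theorem Reg.inv {z : Rt 1 K} {v : L} (h : Reg t₀ z v) (hv : v ≠ 0) : Reg t₀ z⁻¹ v⁻¹ := by
  obtain ⟨N, D, hD, h1, h2⟩ := h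
  have hN : Polynomial.aeval t₀ N ≠ 0 := by
    rw [← h2]
    exact mul_ne_zero hv hD
  have hN' := Reg.D_ne hN
  have hz : z ≠ 0 := by
    rintro rfl
    rw [zero_mul] at h1
    exact hN' h1.symm
  refine ⟨D, N, hN, ?_, ?_⟩
  · rw [← h1]
    field_simp
  · rw [← h2]
    field_simp

theorem Reg.div {z z' : Rt 1 K} {v v' : L} (h : Reg t₀ z v) (h' : Reg t₀ z' v') (hv : v' ≠ 0) :
    Reg t₀ (z / z') (v / v') := by
  rw [div_eq_mul_inv, div_eq_mul_inv]
  exact h.mul (h'.inv hv)

theorem Reg.pow {z : Rt 1 K} {v : L} (h : Reg t₀ z v) (n : ℕ) : Reg t₀ (z ^ n) (v ^ n) := by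
  induction n with
  | zero =>
    rw [pow_zero, pow_zero]
    have h1 := Reg.const (K := K) t₀ 1
    rwa [map_one, map_one] at h1
  | succ n ih =>
    rw [pow_succ, pow_succ]
    exact ih.mul h

theorem Reg.unique {z : Rt 1 K} {v v' : L} (h : Reg t₀ z v) (h' : Reg t₀ z v') : v = v' := by
  have h1 := h.sub h'
  rw [sub_self] at h1
  exact sub_eq_zero.mp h1.zero_val

end

section

variable {k K : Type u} [Field k] [Field K] [Algebra k K] {L : Type v} [Field L] [Algebra K L]
  [Algebra k L] [IsScalarTower k K L] {t₀ : L} {ι : Type w}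

/-- the values of polynomials -/
theorem Reg.aeval {y : ι → Rt 1 K} {v : ι → L} (h : ∀ i, Reg t₀ (y i) (v i))
    (G : MvPolynomial ι k) : Reg t₀ (MvPolynomial.aeval y G) (MvPolynomial.aeval v G) := by
  induction G using MvPolynomial.induction_on with
  | C a =>
    rw [MvPolynomial.aeval_C, MvPolynomial.aeval_C, IsScalarTower.algebraMap_apply k K (Rt 1 K),
      IsScalarTower.algebraMap_apply k K L]
    exact Reg.const t₀ _
  | add p q hp hq =>
    rw [map_add, map_add]
    exact hp.add hq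
  | mul_X p i hp =>
    rw [map_mul, map_mul, aeval_X, aeval_X]
    exact hp.mul (h i)

/-- a point whose specialisation is generic is generic -/
theorem Reg.indep {y : ι → Rt 1 K} {v : ι → L} (h : ∀ i, Reg t₀ (y i) (v i))
    (hv : AlgebraicIndependent k v) : AlgebraicIndependent k y := by
  unfold AlgebraicIndependent
  rw [injective_iff_map_eq_zero]
  intro G hG
  have h1 := Reg.aeval h G
  rw [hG] at h1
  exact hv (h1.zero_val.trans (map_zero _).symm)

/-- The specialisation of a homomorphism into `K(t)`. -/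
theorem spec_hom {S : Set K} (hS : IntermediateField.adjoin k S = ⊤) (σ : K →ₐ[k] Rt 1 K)
    (τ : K →ₐ[k] L) (h : ∀ z ∈ S, Reg t₀ (σ z) (τ z)) (b : K) : Reg t₀ (σ b) (τ b) := by
  have hb : b ∈ IntermediateField.adjoin k S := by
    rw [hS]
    trivial
  induction hb using IntermediateField.adjoin_induction with
  | mem z hz => exact h z hz
  | algebraMap c =>
    rw [σ.commutes, τ.commutes, IsScalarTower.algebraMap_apply k K (Rt 1 K),
      IsScalarTower.algebraMap_apply k K L]
    exact Reg.const t₀ _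
  | add a b _ _ ha hb =>
    rw [map_add, map_add]
    exact ha.add hb
  | inv a _ ha =>
    by_cases h0 : a = 0
    · rw [h0, inv_zero, map_zero, map_zero]
      have := Reg.const (K := K) t₀ 0
      rwa [map_zero, map_zero] at this
    · rw [map_inv₀, map_inv₀]
      exact ha.inv (fun h1 => h0 (τ.injective (h1.trans (map_zero _).symm)))
  | mul a b _ _ ha hb =>
    rw [map_mul, map_mul]
    exact ha.mul hb

/-- the value of an immovable function is constant along the family -/
theorem spec_const {S : Set K} (hS : IntermediateField.adjoin k S = ⊤) (σ : K →ₐ[k] Rt 1 K)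
    (τ : K →ₐ[k] L) (h : ∀ z ∈ S, Reg t₀ (σ z) (τ z)) {a a' : K}
    (ha : σ a = algebraMap K (Rt 1 K) a') : τ a = algebraMap K L a' := by
  have h1 := spec_hom hS σ τ h a
  rw [ha] at h1
  exact h1.unique (Reg.const t₀ a')

end

end Pool.Agent.N128.DQ
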