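import Pool.Agent.N128.DQ.Main

/-!
# Triple covers of degree at most three in a pair of variables and in all the other variables

`w ^ 3 = f`, `f` irreducible, of total degree at most three in two variables `p`, `q` and of degree at most three in
every other variable, such that the general point of the branch curve of the general fibre is not a flex.
-/

set_option autoImplicit false
set_option linter.unusedSectionVars false
set_option maxHeartbeats 400000

namespace Pool.Agent.N128.DQ.Tri

open MvPolynomial Pool.Agent.R867.Mov Pool.Agent.N128.DQ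

universe u v w

section Defs

variable {k : Type u} [Field k] {ι : Type w} [DecidableEq ι]

/-- the numerator -/
noncomputable def CC (p q : ι) (f : MvPolynomial ι k) : Polynomial (MvPolynomial ι k) :=
  9 * (3 * Polynomial.C f * D2' p q f - D1 p q f ^ 2)

/-- the denominator -/
noncomputable def BB (p q : ι) (f : MvPolynomial ι k) : Polynomial (MvPolynomial ι k) :=
  D1 p q f ^ 3 - 27 * Polynomial.C f ^ 2 * D3' p q f

/-- the reduced denominator -/
noncomputable def EE (p q : ι) (f : MvPolynomial ι k) : Polynomial (MvPolynomial ι k) :=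
  D2' p q f ^ 3 - 6 * D1 p q f * D2' p q f * D3' p q f + 27 * Polynomial.C f * D3' p q f ^ 2

theorem CC_dvd (p q : ι) (f : MvPolynomial ι k) :
    CC p q f ∣ 9 * (BB p q f ^ 2 - 27 * Polynomial.C f ^ 3 * EE p q f) := by
  refine ⟨-(D1 p q f ^ 4 + D1 p q f ^ 2 * (3 * Polynomial.C f * D2' p q f) +
    (3 * Polynomial.C f * D2' p q f) ^ 2 - 54 * Polynomial.C f ^ 2 * D1 p q f * D3' p q f), ?_⟩
  unfold CC BB EE
  ring

theorem no_dvd_F [CharZero k] {p q : ι} {f : MvPolynomial ι k} (hf : Irreducible f)
    (hH : ¬ f ∣ Hs p q f) (n : ℕ) :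
    ¬ (CC p q f).map (algebraMap (MvPolynomial ι k) (FractionRing (MvPolynomial ι k))) ∣
      ((BB p q f).map (algebraMap (MvPolynomial ι k) (FractionRing (MvPolynomial ι k)))) ^ n := by
  intro h
  have hp := hf.prime
  obtain ⟨hpp, hq⟩ := degs hH
  have hfq := not_dvd_pderiv hq
  have hfp := not_dvd_pderiv hpp
  have hh : ¬ f ∣ hs p q f := fun h => hH (by rw [← two_hs]; exact h.mul_left 2)
  obtain ⟨A, hA⟩ : ∃ A, A = algebraMap (MvPolynomial ι k) (FractionRing (MvPolynomial ι k)) :=
    ⟨_, rfl⟩
  rw [← hA] at h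
  have hinj : Function.Injective A := by
    rw [hA]
    exact IsFractionRing.injective _ _
  have hf0 : A f ≠ 0 := by
    rw [Ne, map_eq_zero_iff A hinj]
    exact hf.ne_zero
  have hcA : CharZero (FractionRing (MvPolynomial ι k)) :=
    charZero_of_injective_ringHom (f := A.comp (C : k →+* MvPolynomial ι k))
      (hinj.comp (C_injective ι k))
  have hu : IsUnit (Polynomial.C (A f)) := Polynomial.isUnit_C.mpr hf0.isUnit
  have h9 : IsUnit (9 : Polynomial (FractionRing (MvPolynomial ι k))) := by
    have : (9 : Polynomial (FractionRing (MvPolynomial ι k))) =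
        Polynomial.C (9 : FractionRing (MvPolynomial ι k)) := by
      rw [map_ofNat]
    rw [this]
    exact Polynomial.isUnit_C.mpr (by norm_num : (9 : FractionRing (MvPolynomial ι k)) ≠ 0).isUnit
  have h27 : IsUnit (27 : Polynomial (FractionRing (MvPolynomial ι k))) := by
    have : (27 : Polynomial (FractionRing (MvPolynomial ι k))) =
        Polynomial.C (27 : FractionRing (MvPolynomial ι k)) := by
      rw [map_ofNat]
    rw [this]
    exact Polynomial.isUnit_C.mpr (by norm_num : (27 : FractionRing (MvPolynomial ι k)) ≠ 0).isUnit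
  -- `CC` divides a power of `EE`
  have h1 : (CC p q f).map A ∣ (BB p q f).map A ^ 2 -
      27 * Polynomial.C (A f) ^ 3 * (EE p q f).map A := by
    have h2 := Polynomial.map_dvd A (CC_dvd p q f)
    simp only [Polynomial.map_mul, Polynomial.map_sub, Polynomial.map_pow, Polynomial.map_ofNat,
      Polynomial.map_C] at h2
    exact h9.dvd_mul_left.mp h2
  have h2 : (CC p q f).map A ∣ (27 * Polynomial.C (A f) ^ 3 * (EE p q f).map A) ^ n := by
    have h3 : (CC p q f).map A ∣ ((BB p q f).map A ^ 2) ^ n := by
      rw [← pow_mul, mul_comm 2 n, pow_mul, sq]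
      exact (h.mul_right _)
    have h4 := (sub_dvd_pow_sub_pow ((BB p q f).map A ^ 2)
      (27 * Polynomial.C (A f) ^ 3 * (EE p q f).map A) n)
    have h5 := h1.trans h4
    have h6 := dvd_sub h3 h5
    rwa [sub_sub_cancel] at h6
  have h3 : (CC p q f).map A ∣ (EE p q f ^ n).map A := by
    rw [Polynomial.map_pow]
    rw [mul_pow] at h2
    exact ((h27.mul (hu.pow 3)).pow n).dvd_mul_left.mp h2
  -- evaluation at the tangent direction
  have hdom : IsDomain (MvPolynomial ι k ⧸ Ideal.span {f}) := by
    rw [Ideal.Quotient.isDomain_iff_prime]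
    exact (Ideal.span_singleton_prime hp.ne_zero).mpr hp
  obtain ⟨B, hB⟩ : ∃ B : MvPolynomial ι k →+* FractionRing (MvPolynomial ι k ⧸ Ideal.span {f}),
    B = (algebraMap (MvPolynomial ι k ⧸ Ideal.span {f}) _).comp
      (Ideal.Quotient.mk (Ideal.span {f})) := ⟨_, rfl⟩
  have hker : ∀ z : MvPolynomial ι k, B z = 0 ↔ f ∣ z := fun z => by
    rw [hB, RingHom.comp_apply, map_eq_zero_iff _ (IsFractionRing.injective _ _),
      Ideal.Quotient.eq_zero_iff_mem, Ideal.mem_span_singleton]
  have hBq : B (pderiv q f) ≠ 0 := fun h0 => hfq ((hker _).mp h0)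
  obtain ⟨θ, hθ⟩ : ∃ θ, θ = -(B (pderiv p f) / B (pderiv q f)) := ⟨_, rfl⟩
  have hQθ : B (pderiv q f) * θ = - B (pderiv p f) := by
    rw [hθ]
    field_simp
  have hBf : B f = 0 := (hker f).mpr dvd_rfl
  have hD1 : Polynomial.eval₂ B θ (D1 p q f) = 0 := by
    unfold D1
    simp only [Polynomial.eval₂_add, Polynomial.eval₂_mul, Polynomial.eval₂_C, Polynomial.eval₂_X,
      g10, g01]
    rw [hQθ]
    ring
  have hD2 : Polynomial.eval₂ B θ (D2' p q f) ≠ 0 := by
    intro h0
    apply hh
    rw [← hker]
    have h4 : B (hs p q f) = B (pderiv q f) ^ 2 * Polynomial.eval₂ B θ (D2' p q f) := by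
      unfold D2' hs
      simp only [Polynomial.eval₂_add, Polynomial.eval₂_mul, Polynomial.eval₂_C,
        Polynomial.eval₂_X, Polynomial.eval₂_pow, map_add, map_sub, map_mul, map_pow]
      have h5 : B (pderiv p f) = -(B (pderiv q f) * θ) := by
        rw [hQθ, neg_neg]
      rw [h5]
      ring
    rw [h4, h0, mul_zero]
  have hCn : ¬ Polynomial.C f ∣ CC p q f := by
    rintro ⟨P', hP'⟩
    have h4 := congrArg (fun P => P.coeff 0) hP'
    have h5 : f ∣ 9 * (3 * f * g p q f 2 0 - pderiv p f ^ 2) := by
      refine ⟨P'.coeff 0, ?_⟩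
      simp only [Polynomial.coeff_zero_eq_eval_zero, Polynomial.eval_mul, Polynomial.eval_C] at h4
      rw [Polynomial.coeff_zero_eq_eval_zero, ← h4]
      unfold CC D1 D2'
      simp only [Polynomial.eval_mul, Polynomial.eval_add, Polynomial.eval_sub,
        Polynomial.eval_pow, Polynomial.eval_C, Polynomial.eval_X, Polynomial.eval_ofNat, g10]
      ring
    have h6 : f ∣ 3 * f * g p q f 2 0 - pderiv p f ^ 2 := by
      refine dvd_of_unit_mul (a := (9 : k)) (by norm_num) ?_
      rwa [show (C (9 : k) : MvPolynomial ι k) = 9 by exact map_ofNat C 9]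
    have h7 : f ∣ pderiv p f ^ 2 := by
      have h8 : pderiv p f ^ 2 = f * (3 * g p q f 2 0) - (3 * f * g p q f 2 0 - pderiv p f ^ 2) := by
        ring
      rw [h8]
      exact dvd_sub (Dvd.intro _ rfl) h6
    exact hfp (hp.dvd_of_dvd_pow h7)
  rw [hA] at h3
  obtain ⟨r', E, hr', hE⟩ := clearG (π := f) hp (fun r hr => by
    have h5 : FiniteMultiplicity f r := FiniteMultiplicity.of_not_isUnit hf.not_isUnit hr
    obtain ⟨c, hc, hc'⟩ := h5.exists_eq_pow_mul_and_not_dvd
    exact ⟨_, c, hc, hc'⟩) hCn h3
  have h4 := congrArg (Polynomial.eval₂ B θ) hE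
  have hC0 : Polynomial.eval₂ B θ (CC p q f) = 0 := by
    unfold CC
    simp only [Polynomial.eval₂_mul, Polynomial.eval₂_sub, Polynomial.eval₂_pow,
      Polynomial.eval₂_C, hD1, hBf]
    ring
  have hE0 : Polynomial.eval₂ B θ (EE p q f) = Polynomial.eval₂ B θ (D2' p q f) ^ 3 := by
    unfold EE
    simp only [Polynomial.eval₂_add, Polynomial.eval₂_mul, Polynomial.eval₂_sub,
      Polynomial.eval₂_pow, Polynomial.eval₂_C, hD1, hBf]
    ring
  rw [Polynomial.eval₂_mul, Polynomial.eval₂_mul, Polynomial.eval₂_C, Polynomial.eval₂_pow, hC0,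
    hE0, zero_mul] at h4
  rcases mul_eq_zero.mp h4 with h5 | h5
  · exact hr' ((hker _).mp h5)
  · exact pow_ne_zero _ (pow_ne_zero _ hD2) h5

/-- The direction in which the line hyperosculates. -/
theorem root [CharZero k] {K : Type v} [Field K] [Algebra k K] {x : ι → K}
    (hx : AlgebraicIndependent k x) {p q : ι} {f : MvPolynomial ι k} (hf : Irreducible f)
    (hH : ¬ f ∣ Hs p q f) : ∃ (L : Type v) (_ : Field L) (_ : Algebra K L) (t₀ : L),
      Polynomial.aeval t₀ ((CC p q f).map (aeval x : MvPolynomial ι k →ₐ[k] K).toRingHom) = 0 ∧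
      Polynomial.aeval t₀ ((BB p q f).map (aeval x : MvPolynomial ι k →ₐ[k] K).toRingHom) ≠ 0 := by
  apply exists_root
  intro n h
  apply no_dvd_F hf hH n
  have hinj : Function.Injective (aeval x : MvPolynomial ι k →ₐ[k] K).toRingHom := hx
  obtain ⟨φ, hφc⟩ := lift_ex (aeval x : MvPolynomial ι k →ₐ[k] K).toRingHom hinj
  rw [← hφc, ← Polynomial.map_map, ← Polynomial.map_map, ← Polynomial.map_pow] at h
  exact (Polynomial.map_dvd_map' φ).mp h

end Defs

section Fam

variable {k K : Type u} [Field k] [CharZero k] [Field K] [Algebra k K] {ι : Type w} [DecidableEq ι]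
  {x : ι → K} {f : MvPolynomial ι k} {w : K} {E : Type v} [Field E] [Algebra k E] [Algebra K E]
  [IsScalarTower k K E]

/-- the expansion of `f` at the point moved by `(l, t l)` -/
theorem expand3 {p q : ι} (hpq : q ≠ p) (hf : ∀ m ∈ f.support, m p + m q ≤ 3) (y : ι → E)
    (t l : E) :
    aeval (Function.update (Function.update y q (y q + t * l)) p (y p + l)) f =
      aeval y f + ev2 y t (D1 p q f) * l + ev2 y t (D2' p q f) * l ^ 2 +
        ev2 y t (D3' p q f) * l ^ 3 := by
  have h := expand hpq (fun m hm => (hf m hm).trans (by norm_num)) y t l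
  rw [h]
  have h4 : D4' p q f = 0 := by
    have hg : ∀ a b, 3 < a + b → g p q f a b = 0 := by
      intro a b hab
      unfold g
      by_cases ha : 3 < a
      · have : (tay p f).coeff a = 0 := by
          refine tay_coeff_zero (d := 3) ?_ ha
          rw [degreeOf_le_iff]
          intro m hm
          have := hf m hm
          omega
        rw [this, map_zero, Polynomial.coeff_zero]
      · exact tay_coeff_zero (deg_coeff hpq hf a) (by omega)
    unfold D4'
    rw [hg 4 0 (by norm_num), hg 3 1 (by norm_num), hg 2 2 (by norm_num), hg 1 3 (by norm_num),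
      hg 0 4 (by norm_num)]
    simp
  rw [h4, map_zero]
  ring

/-- the step to the residual intersection -/
noncomputable def hh (x : ι → K) (p q : ι) (f : MvPolynomial ι k) (t : E) : E :=
  ev2 (fun i => algebraMap K E (x i)) t (Polynomial.C f * CC p q f) /
    ev2 (fun i => algebraMap K E (x i)) t (BB p q f)

/-- the moved point -/
noncomputable def pt (x : ι → K) (p q : ι) (f : MvPolynomial ι k) (t : E) : ι → E :=
  Function.update (Function.update (fun i => algebraMap K E (x i)) q
    (algebraMap K E (x q) + t * hh x p q f t)) p (algebraMap K E (x p) + hh x p q f t)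

/-- the moved cubic root -/
noncomputable def wt (x : ι → K) (w : K) (p q : ι) (f : MvPolynomial ι k) (t : E) : E :=
  algebraMap K E w * (3 * ev2 (fun i => algebraMap K E (x i)) t (Polynomial.C f) +
      ev2 (fun i => algebraMap K E (x i)) t (D1 p q f) * hh x p q f t) /
    (3 * ev2 (fun i => algebraMap K E (x i)) t (Polynomial.C f))

theorem wt_cb (hx : AlgebraicIndependent k x) (hf : Irreducible f) (hw : w ^ 3 = aeval x f)
    {p q : ι} (hpq : q ≠ p) (h3 : ∀ m ∈ f.support, m p + m q ≤ 3) {t : E}
    (hB : ev2 (fun i => algebraMap K E (x i)) t (BB p q f) ≠ 0) :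
    wt x w p q f t ^ 3 = aeval (pt x p q f t) f := by
  have hcE : CharZero E := charZero_of_injective_algebraMap (algebraMap k E).injective
  have hF : aeval x f ≠ 0 := fun h0 => hf.ne_zero (hx (h0.trans (map_zero _).symm))
  have hF' : ev2 (fun i => algebraMap K E (x i)) t (Polynomial.C f) ≠ 0 := by
    rw [ev2_C, aeval_up, Ne, map_eq_zero]
    exact hF
  have hexp := expand3 hpq h3 (fun i => algebraMap K E (x i)) t (hh x p q f t)
  beta_reduce at hexp
  unfold pt
  rw [hexp]
  have hid := ident3 (F := ev2 (fun i => algebraMap K E (x i)) t (Polynomial.C f))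
    (a1 := ev2 (fun i => algebraMap K E (x i)) t (D1 p q f))
    (a2 := ev2 (fun i => algebraMap K E (x i)) t (D2' p q f))
    (a3 := ev2 (fun i => algebraMap K E (x i)) t (D3' p q f)) (h := hh x p q f t)
    (w := algebraMap K E w) hF' (by rw [ev2_C, aeval_up, ← hw, map_pow]) (by
      have h5 : hh x p q f t * ev2 (fun i => algebraMap K E (x i)) t (BB p q f) =
          ev2 (fun i => algebraMap K E (x i)) t (Polynomial.C f * CC p q f) :=
        div_mul_cancel₀ _ hB
      unfold BB CC at h5
      simp only [map_sub, map_mul, map_add, map_pow, map_ofNat] at h5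
      linear_combination h5)
  unfold wt
  rw [hid, ev2_C]

/-- the homomorphism given by a direction -/
theorem hom_of (hx : AlgebraicIndependent k x) (hf : Irreducible f) (hw : w ^ 3 = aeval x f)
    (htop : IntermediateField.adjoin k (insert w (Set.range x)) = ⊤)
    {p q : ι} (hpq : q ≠ p) (h3 : ∀ m ∈ f.support, m p + m q ≤ 3) {t : E}
    (hB : ev2 (fun i => algebraMap K E (x i)) t (BB p q f) ≠ 0)
    (hind : AlgebraicIndependent k (pt x p q f t)) :
    ∃ φ : K →ₐ[k] E, (∀ i, φ (x i) = pt x p q f t i) ∧ φ w = wt x w p q f t :=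
  exists_hom hf (r := 3) (by norm_num) hx hw htop hind (wt_cb hx hf hw hpq h3 hB)

end Fam

section Regular

variable {k K : Type u} [Field k] [CharZero k] [Field K] [Algebra k K] {ι : Type w} [DecidableEq ι]
  {x : ι → K} {f : MvPolynomial ι k} {w : K} {L : Type v} [Field L] [Algebra k L] [Algebra K L]
  [IsScalarTower k K L] {t₀ : L}

theorem reg_hh {p q : ι} (hB : ev2 (fun i => algebraMap K L (x i)) t₀ (BB p q f) ≠ 0) :
    Reg t₀ (hh x p q f (tt K)) (hh x p q f t₀) :=
  (reg_ev2 _).div (reg_ev2 _) hB

theorem reg_pt {p q : ι} (hB : ev2 (fun i => algebraMap K L (x i)) t₀ (BB p q f) ≠ 0) (i : ι) :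
    Reg t₀ (pt x p q f (tt K) i) (pt x p q f t₀ i) := by
  unfold pt
  have h := reg_hh (x := x) hB
  by_cases hi : i = p
  · rw [hi, Function.update_self, Function.update_self]
    exact (Reg.const t₀ _).add h
  · rw [Function.update_of_ne hi, Function.update_of_ne hi]
    by_cases hj : i = q
    · rw [hj, Function.update_self, Function.update_self]
      exact (Reg.const t₀ _).add ((Reg.var t₀).mul h)
    · rw [Function.update_of_ne hj, Function.update_of_ne hj]
      exact Reg.const t₀ _

theorem reg_wt (hx : AlgebraicIndependent k x) (hf : Irreducible f) {p q : ι}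
    (hB : ev2 (fun i => algebraMap K L (x i)) t₀ (BB p q f) ≠ 0) :
    Reg t₀ (wt x w p q f (tt K)) (wt x w p q f t₀) := by
  have hcL : CharZero L := charZero_of_injective_algebraMap (algebraMap k L).injective
  have h := reg_hh (x := x) hB
  unfold wt
  refine Reg.div ?_ ?_ ?_
  · exact (Reg.const t₀ w).mul (((reg_num 3).mul (reg_ev2 _)).add ((reg_ev2 _).mul h))
  · exact (reg_num 3).mul (reg_ev2 _)
  · have hF : aeval x f ≠ 0 := fun h0 => hf.ne_zero (hx (h0.trans (map_zero _).symm))
    rw [ev2_C, aeval_up]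
    refine mul_ne_zero (by norm_num) ?_
    rw [Ne, map_eq_zero]
    exact hF

end Regular

section Base

variable {k K : Type u} [Field k] [CharZero k] [Field K] [Algebra k K] {ι : Type w} [DecidableEq ι]
  {x : ι → K} {f : MvPolynomial ι k} {w : K}

theorem CC_zero (p q : ι) (f : MvPolynomial ι k) : (CC p q f).coeff 0 = C3 p f := by
  unfold CC C3 D1 D2'
  simp only [Polynomial.coeff_zero_eq_eval_zero, Polynomial.eval_mul, Polynomial.eval_add,
    Polynomial.eval_sub, Polynomial.eval_pow, Polynomial.eval_C, Polynomial.eval_X,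
    Polynomial.eval_ofNat, ga0, tay_one]
  ring

theorem BB_zero (p q : ι) (f : MvPolynomial ι k) : (BB p q f).coeff 0 = D3 p f := by
  unfold BB D3 D1 D3'
  simp only [Polynomial.coeff_zero_eq_eval_zero, Polynomial.eval_mul, Polynomial.eval_add,
    Polynomial.eval_sub, Polynomial.eval_pow, Polynomial.eval_C, Polynomial.eval_X,
    Polynomial.eval_ofNat, ga0, tay_one]
  ring

theorem he9 : (1 : k) + (-9) ≠ 0 := by norm_num

/-- the base step -/
theorem base (hx : AlgebraicIndependent k x) (hf : Irreducible f) (hw : w ^ 3 = aeval x f)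
    (htop : IntermediateField.adjoin k (insert w (Set.range x)) = ⊤)
    {p q : ι} (hpq : q ≠ p) (h3 : ∀ m ∈ f.support, m p + m q ≤ 3) (hH : ¬ f ∣ Hs p q f)
    (a : K) (ha : Imm k a) : a ∈ cl k (x '' {p, q}ᶜ) := by
  obtain ⟨hdp, -⟩ := degs hH
  have hnq := not_dvd_pderiv hdp
  have hD0 : aeval x (D3 p f) ≠ 0 := fun h0 =>
    ne_zero_of_dvd hf (D3_dvd p f) hnq (hx (h0.trans (map_zero _).symm))
  -- the direction `0`
  have hid : (fun i => algebraMap K K (x i)) = x := rfl
  have hB0 : ev2 (fun i => algebraMap K K (x i)) (0 : K) (BB p q f) ≠ 0 := by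
    rw [hid, ev2_zero, BB_zero]
    exact hD0
  have hh0 : hh x p q f (0 : K) = aeval x (f * C3 p f) / aeval x (D3 p f) := by
    unfold hh
    rw [hid, ev2_zero, ev2_zero, BB_zero, Polynomial.mul_coeff_zero, Polynomial.coeff_C_zero,
      CC_zero]
  have hpt0 : pt x p q f (0 : K) = Function.update x p
      (x p + aeval x (f * C3 p f) / aeval x (D3 p f)) := by
    unfold pt
    rw [hh0]
    funext i
    by_cases hi : i = p
    · rw [hi, Function.update_self, Function.update_self]
      rfl
    · rw [Function.update_of_ne hi, Function.update_of_ne hi]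
      by_cases hj : i = q
      · rw [hj, Function.update_self, zero_mul, add_zero]
        rfl
      · rw [Function.update_of_ne hj]
        rfl
  have hnot := notMem_cl_B hx hf hdp (C3_dvd p f) (D3_dvd p f) he9 hnq
  have hind0 : AlgebraicIndependent k (pt x p q f (0 : K)) := by
    rw [hpt0]
    exact indep_update hx hnot
  obtain ⟨T, hT, hTw⟩ := hom_of hx hf hw htop hpq h3 hB0 hind0
  have hTi : ∀ i, i ≠ p → T (x i) = x i := by
    intro i hi
    rw [hT, hpt0, Function.update_of_ne hi]
  have hTp : T (x p) = x p + aeval x (f * C3 p f) / aeval x (D3 p f) := by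
    rw [hT, hpt0, Function.update_self]
  -- the generic direction
  have hBt : ev2 (fun i => algebraMap K (Rt 1 K) (x i)) (tt K) (BB p q f) ≠ 0 := by
    intro h0
    have h1 := reg_ev2 (x := x) (t₀ := (0 : K)) (BB p q f)
    rw [h0] at h1
    exact hB0 h1.zero_val
  have hindt : AlgebraicIndependent k (pt x p q f (tt K)) := Reg.indep (reg_pt hB0) hind0
  obtain ⟨σ, hσ, hσw⟩ := hom_of hx hf hw htop hpq h3 hBt hindt
  obtain ⟨a', ha'⟩ := ha 1 σ
  have hTa : T a = a' := by
    refine spec_const (t₀ := (0 : K)) htop σ T ?_ ha'.symm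
    rintro z (rfl | ⟨i, rfl⟩)
    · rw [hσw, hTw]
      exact reg_wt hx hf hB0
    · rw [hσ, hT]
      exact reg_pt hB0 i
  -- the hyperosculating direction
  obtain ⟨L, _, _, t₀, hC, hB⟩ := root hx hf hH
  letI : Algebra k L := ((algebraMap K L).comp (algebraMap k K)).toAlgebra
  haveI : IsScalarTower k K L := IsScalarTower.of_algebraMap_eq fun _ => rfl
  have hC' : ev2 (fun i => algebraMap K L (x i)) t₀ (CC p q f) = 0 := by
    rw [ev2_eq]
    exact hC
  have hB' : ev2 (fun i => algebraMap K L (x i)) t₀ (BB p q f) ≠ 0 := by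
    rw [ev2_eq]
    exact hB
  have hhL : hh x p q f t₀ = 0 := by
    unfold hh
    rw [map_mul, hC', mul_zero, zero_div]
  have hF : aeval x f ≠ 0 := fun h0 => hf.ne_zero (hx (h0.trans (map_zero _).symm))
  have haa : algebraMap K L a = algebraMap K L a' := by
    have h1 := spec_const (t₀ := t₀) htop σ (IsScalarTower.toAlgHom k K L) ?_ ha'.symm
    · exact h1
    · have hcL : CharZero L := charZero_of_injective_algebraMap (algebraMap k L).injective
      rintro z (rfl | ⟨i, rfl⟩)
      · rw [hσw]
        have h2 := reg_wt (w := z) hx hf hB'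
        have h3 : wt x z p q f t₀ = IsScalarTower.toAlgHom k K L z := by
          unfold wt
          rw [hhL]
          have h5 : ev2 (fun i => algebraMap K L (x i)) t₀ (Polynomial.C f) ≠ 0 := by
            rw [ev2_C, aeval_up, Ne, map_eq_zero]
            exact hF
          rw [IsScalarTower.coe_toAlgHom']
          field_simp
          ring
        rwa [h3] at h2
      · rw [hσ]
        have h2 := reg_pt (x := x) hB' i
        have h3 : pt x p q f t₀ i = IsScalarTower.toAlgHom k K L (x i) := by
          unfold pt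
          rw [hhL, IsScalarTower.coe_toAlgHom']
          by_cases hi : i = p
          · rw [hi, Function.update_self, add_zero]
          · rw [Function.update_of_ne hi]
            by_cases hj : i = q
            · rw [hj, Function.update_self, mul_zero, add_zero]
            · rw [Function.update_of_ne hj]
        rwa [h3] at h2
  have haa' : a = a' := (algebraMap K L).injective haa
  rw [← haa'] at hTa
  obtain ⟨hO, h9⟩ := mult hx hf hdp (C3_dvd p f) (D3_dvd p f) hTi hTp
  have hcl : a ∈ cl k (x '' {p}ᶜ) :=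
    fixed_mem (r := 3) (by norm_num) hw htop hTi (fun N hN => pow_ne hx hf hO h9 (eight_pow hN)) hTa
  -- the second variable
  have hset : x '' {p}ᶜ = insert (x q) (x '' {p, q}ᶜ) := by
    rw [← Set.image_insert_eq]
    congr 1
    ext i
    simp only [Set.mem_compl_iff, Set.mem_singleton_iff, Set.mem_insert_iff, not_or]
    constructor
    · intro h
      by_cases hi : i = q
      · exact Or.inl hi
      · exact Or.inr ⟨h, hi⟩
    · rintro (rfl | ⟨h, -⟩)
      · exact hpq
      · exact h
  rw [hset] at hcl
  refine step_out σ (R := con 1 K) ?_ (subset_cl _ ⟨a', ha'⟩) ?_ hcl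
  · rintro _ ⟨i, hi, rfl⟩
    refine subset_cl _ ?_
    simp only [Set.mem_compl_iff, Set.mem_singleton_iff, Set.mem_insert_iff, not_or] at hi
    rw [hσ]
    unfold pt
    rw [Function.update_of_ne hi.1, Function.update_of_ne hi.2]
    exact ⟨x i, rfl⟩
  · intro h
    obtain ⟨c, hc⟩ := mem_con_cl h
    rw [hσ] at hc
    unfold pt at hc
    rw [Function.update_of_ne hpq, Function.update_self] at hc
    -- `t h` is a constant, so it is zero
    have h1 : tt K * hh x p q f (tt K) = algebraMap K (Rt 1 K) (c - x q) := by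
      rw [map_sub, hc]
      ring
    have h2 : Reg (0 : K) (tt K * hh x p q f (tt K)) (0 * hh x p q f (0 : K)) :=
      (Reg.var _).mul (reg_hh hB0)
    rw [h1, zero_mul] at h2
    have h3 := h2.unique (Reg.const (0 : K) (c - x q))
    have h4 : c - x q = 0 := h3.symm
    rw [h4, map_zero] at h1
    have htt : tt K ≠ 0 := by
      intro h5
      apply tt_not (K := K)
      rw [h5]
      exact isAlgebraic_zero
    have h5 : hh x p q f (tt K) = 0 := (mul_eq_zero.mp h1).resolve_left htt
    have h6 := reg_hh (x := x) hB0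
    rw [h5] at h6
    have h7 := h6.zero_val
    rw [hh0] at h7
    have h8 : aeval x (f * C3 p f) = 0 := by
      rcases div_eq_zero_iff.mp h7 with h8 | h8
      · exact h8
      · exact absurd h8 hD0
    rw [map_mul] at h8
    have h9 : C3 p f = 0 := hx (((mul_eq_zero.mp h8).resolve_left hF).trans (map_zero _).symm)
    have h10 := C3_dvd p f
    rw [h9, zero_sub, dvd_neg] at h10
    exact hnq (hf.prime.dvd_of_dvd_pow (dvd_of_unit_mul (by norm_num) h10))

/-- Triple covers of degree at most three in a pair of variables and in each of the other ones. -/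
theorem main [IsAlgClosed k] [Finite ι] (hf : Irreducible f) {p q : ι} (hpq : q ≠ p)
    (h3 : ∀ m ∈ f.support, m p + m q ≤ 3) (hj : ∀ j, degreeOf j f ≤ 3) (hH : ¬ f ∣ Hs p q f)
    (hx : AlgebraicIndependent k x) (hw : w ^ 3 = aeval x f)
    (htop : IntermediateField.adjoin k (insert w (Set.range x)) = ⊤) :
    ∃ n, Nonempty (K →ₐ[k] Rt n k) := by
  refine unirational_of_imm ⟨((Set.toFinite (insert w (Set.range x))).toFinset), by
    rw [Set.Finite.coe_toFinset, htop]⟩ ?_
  obtain ⟨hdp, -⟩ := degs hH
  refine all_out hx hf (r := 3) (by norm_num) hw htop (I₀ := {p, q})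
    (base hx hf hw htop hpq h3 hH) ?_
  intro j hj' hpos
  obtain ⟨T, hT1, hT2⟩ := self3 hx hf hw htop hpos (hj j)
  refine ⟨T, hT1, ?_⟩
  rw [hT2]
  exact notMem_cl_A hx hf (i₀ := p) hj' (by simp) hdp (C3_dvd j f) (D3_dvd j f) (by norm_num)
    (not_dvd_pderiv hpos)

end Base

end Pool.Agent.N128.DQ.Tri
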